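import Pool.Agent.helper87.AU.SpecQ1
import Pool.Agent.helper53.AU.SpecTop

/-!
# Project au (MP_97532f_ag), geometric part: the two curves (LOW)

Rules as in SpecQ1: file `Pool/Agent/<seat>/AU/XX.lean`, `import Pool.Agent.helper75.AU.SpecW`,
`namespace Pool.Agent.helper53.AU`, `theorem XX (h : YY_stmt) ... : XX_stmt`; statements of SpecQ1 and of this file
may be taken as hypotheses. Auxiliary lemmas prefixed `XX_`.
-/

set_option linter.unusedVariables false

namespace Pool.Agent.helper53.AU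

open scoped Classical IntermediateField
open Polynomial (aeval)

noncomputable section

/-- `F = k(x, y)`, `y² = f(x)`, `x` transcendental -/
structure Hyp (k : Type) {F : Type} [Field k] [Field F] [Algebra k F] (x y : F) (f : Polynomial k) :
    Prop where
  tr : Transcendental k x
  eq : y ^ 2 = aeval x f
  gen : IntermediateField.adjoin k ({x, y} : Set F) = ⊤

/-- QW0: a squarefree nonconstant polynomial is not a square in `k(X)`; so `T² - f` is irreducible over `k(X)`.
Proof: `k[X]` is integrally closed: a square root of `f` in `k(X)` lies in `k[X]`; `f = r²` squarefree gives `r` unit, `f` constant.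
Degree 2 without a root is irreducible. -/
def QW0_stmt : Prop := ∀ (k : Type) [Field k] (f : Polynomial k), Squarefree f → 1 ≤ f.natDegree →
  Irreducible ((Polynomial.X : Polynomial (RatFunc k)) ^ 2 -
    Polynomial.C (algebraMap (Polynomial k) (RatFunc k) f))

/-- QW1: existence. Proof: `F = AdjoinRoot (T² - f)` over `RatFunc k` (QW0); `x` = the image of `RatFunc.X`, `y` = the root. Every
element is `a(x) + b(x) y`, `a, b ∈ k(x)`. -/
def QW1_stmt : Prop := ∀ (k : Type) [Field k] (f : Polynomial k), Squarefree f → 1 ≤ f.natDegree →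
  ∃ (F : Type) (_ : Field F) (_ : Algebra k F) (x y : F), Hyp k x y f

/-- QW2: uniqueness: two pairs of generators with the same equation differ by an automorphism.
Proof: for every pair `(x, y)` with `Hyp` the map `AdjoinRoot (T² - f) → F` (`RatFunc k → F` by `x`, the root to `y`; a map of fields, so
injective) is onto, because its image is a subfield containing `k`, `x`, `y`. So `F ≃ₐ[k] AdjoinRoot ≃ₐ[k] F`. -/
def QW2_stmt : Prop := ∀ (k F : Type) [Field k] [Field F] [Algebra k F] (f : Polynomial k)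
  (x y x' y' : F), Squarefree f → 1 ≤ f.natDegree → Hyp k x y f → Hyp k x' y' f →
  ∃ σ : F ≃ₐ[k] F, σ x = x' ∧ σ y = y'

/-- QW3: `F` is a function field, `[F : k(x)] = 2`. (`F = k(x)(y)`, `y` a root of the irreducible polynomial `T² - f` over `k(x)`:
QW0 through the isomorphism `RatFunc k ≃ k(x)`, or: `y ∉ k(x)`, since `y = r(x)` gives `f = r²`.) -/
def QW3_stmt : Prop := ∀ (k F : Type) [Field k] [Field F] [Algebra k F] (f : Polynomial k)
  (x y : F), Squarefree f → 1 ≤ f.natDegree → Hyp k x y f → IsFF k F ∧ degx k x = 2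

/-- QW4: one place at infinity (`f` of odd degree `2 m + 1`): a pole `P` of `x` has `2 P.ord y = (2m+1) P.ord x` (the order of `f(x)` at a pole
of `x` is `deg f * P.ord x`: `ord_add_eq`), so `P.ord x` is even; QZ3: `∑_P max(-P.ord x, 0) = degx k x = 2` (QW3): exactly one pole `P₀`,
of order 2, and `P₀.ord y = -(2m+1)`. At the other places `x`, so `f(x) = y²`, so `y` has no pole. -/
def QW4_stmt : Prop := ∀ (k F : Type) [Field k] [IsAlgClosed k] [Field F] [Algebra k F]
  (f : Polynomial k) (x y : F) (m : ℕ), Squarefree f → f.natDegree = 2 * m + 1 → Hyp k x y f →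
  ∃ P₀ : Place k F, x ∈ Reg P₀ ∧ y ∈ Reg P₀ ∧ P₀.ord x = -2 ∧ P₀.ord y = -((2 * m + 1 : ℕ) : ℤ)

/-- QW5: `1, y` is an Apery basis. Proof (characteristic not 2). By QA1 there is a `OneP P₀ x 2 u μ`. By QA2 every pole number congruent to `i` is
`≥ μ i`; so `μ 0 = 0` (`1 ∈ Reg P₀`), `u 0` has no pole (QV0: constant), and `y = φ₀(x) + φ₁(x) v`, `v = u 1`, `2 deg φ₁ + μ 1 = 2m+1`.
`v² = α(x) + β(x) v`. From `y² = f(x)` and the independence of `1, v` over `k[x]` (QA2): `2 φ₀ + φ₁ β = 0` (or `φ₁ = 0`, impossible since the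
pole order of `y` is odd), `f = φ₀² + φ₁² α`; so `φ₁² ∣ 4 f`, `φ₁` is a constant `≠ 0` (`f` squarefree), `μ 1 = 2m+1` and `1, y` span. -/
def QW5_stmt : Prop := ∀ (k F : Type) [Field k] [IsAlgClosed k] [Field F] [Algebra k F], IsFF k F →
  ∀ (f : Polynomial k) (x y : F) (m : ℕ) (P₀ : Place k F), (2 : k) ≠ 0 → Squarefree f →
    f.natDegree = 2 * m + 1 → Hyp k x y f → x ∈ Reg P₀ → y ∈ Reg P₀ → P₀.ord x = -2 →
    P₀.ord y = -((2 * m + 1 : ℕ) : ℤ) → OneP P₀ x 2 ![1, y] ![0, 2 * m + 1]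

/-- QW6: the genus of `y² = f(x)`, `deg f = 2 m + 1`, is `m`. Proof: QW3, QW4, QW5, QR2, QA3. -/
def QW6_stmt : Prop := ∀ (k F : Type) [Field k] [IsAlgClosed k] [Field F] [Algebra k F]
  (f : Polynomial k) (x y : F) (m : ℕ), (2 : k) ≠ 0 → Squarefree f → f.natDegree = 2 * m + 1 →
    Hyp k x y f → IsFF k F ∧ IsGenus k F m

/-- QW7: `X^(2g+1) - X` and its automorphisms: `(a² x, a y)` and `(a²/x, a i y/x^(g+1))`, `a^(4g) = 1`, `i² = -1`: these are pairs of generators with
the same equation (QW2), all different: an injection of `rootsOfUnity ⊕ rootsOfUnity`, `4g` roots of unity because `(4g : k) ≠ 0`. -/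
def QW7_stmt : Prop := ∀ (k F : Type) [Field k] [IsAlgClosed k] [Field F] [Algebra k F] (g : ℕ)
  (x y : F), 2 ≤ g → (4 * g : k) ≠ 0 → Hyp k x y (Polynomial.X ^ (2 * g + 1) - Polynomial.X) →
  ((8 * g : ℕ) : ℕ∞) ≤ ENat.card (F ≃ₐ[k] F)

/-- QW8: `X^n - 1`, `n = 2g+2`, and its automorphisms: `(a x, ε y)` and `(a/x, ε i y/x^(g+1))`, `a^n = 1`, `ε = ±1`, `i² = -1`: `4 n = 8(g+1)`. -/
def QW8_stmt : Prop := ∀ (k F : Type) [Field k] [IsAlgClosed k] [Field F] [Algebra k F] (g : ℕ)
  (x y : F), 2 ≤ g → (2 * g + 2 : k) ≠ 0 → Hyp k x y (Polynomial.X ^ (2 * g + 2) - 1) →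
  ((8 * g : ℕ) : ℕ∞) ≤ ENat.card (F ≃ₐ[k] F)

/-- QW9: the polynomials are squarefree: `X^(2g+1) - X` if `(2 g : k) ≠ 0`; `X^n - 1` if `(n : k) ≠ 0`; `(X+1)^n - X^n` if `(n : k) ≠ 0`, of
degree `n - 1` (common root with the derivative). -/
def QW9_stmt : Prop := ∀ (k : Type) [Field k] [IsAlgClosed k],
  (∀ g : ℕ, 1 ≤ g → (2 * g : k) ≠ 0 → Squarefree (Polynomial.X ^ (2 * g + 1) - Polynomial.X : Polynomial k) ∧
    (Polynomial.X ^ (2 * g + 1) - Polynomial.X : Polynomial k).natDegree = 2 * g + 1) ∧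
  (∀ n : ℕ, 2 ≤ n → (n : k) ≠ 0 → Squarefree (Polynomial.X ^ n - 1 : Polynomial k) ∧
    (Polynomial.X ^ n - 1 : Polynomial k).natDegree = n ∧
    Squarefree ((Polynomial.X + 1) ^ n - Polynomial.X ^ n : Polynomial k) ∧
    ((Polynomial.X + 1) ^ n - Polynomial.X ^ n : Polynomial k).natDegree = n - 1)

/-- QWA: change of model: if `y² = (x+1)^n - x^n`, `n = 2g+2`, then `X = (x+1)/x`, `Y = y/x^(g+1)` satisfy `Y² = X^n - 1` (and generate). -/
def QWA_stmt : Prop := ∀ (k F : Type) [Field k] [Field F] [Algebra k F] (g : ℕ) (x y : F),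
  Hyp k x y ((Polynomial.X + 1) ^ (2 * g + 2) - Polynomial.X ^ (2 * g + 2)) →
  Hyp k ((x + 1) / x) (y / x ^ (g + 1)) (Polynomial.X ^ (2 * g + 2) - 1)

/-- QWF: LOW, from QW1, QW6, QW7, QW8, QW9, QWA: `3 ∤ g`: the first curve; `3 ∣ g`: the second. -/
def QWF_stmt : Prop := LOW_stmt

end

end Pool.Agent.helper53.AU
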