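import Pool.Agent.helper64.AU.QW0
import Pool.Agent.helper11.AU.QW1
import Pool.Agent.helper74.AU.QW2
import Pool.Agent.helper46.AU.QW3
import Pool.Agent.helper72.AU.QW4
import Pool.Agent.helper45.AU.QW5
import Pool.Agent.helper97.AU.QW6
import Pool.Agent.helper25.AU.QW7
import Pool.Agent.helper72.AU.QW8
import Pool.Agent.helper99.AU.QW9
import Pool.Agent.helper93.AU.QWA
import Pool.Agent.helper18.AU.QWF
import Pool.Agent.helper75.AU.SpecW

/-! # Project au: assembly of part W (the two curves) -/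

namespace Pool.Agent.helper53.AU

theorem AsmW (hZ3 : QZ3_stmt) (hR2 : QR2_stmt) (hA1 : QA1_stmt) (hA2 : QA2_stmt)
    (hA3 : QA3_stmt) : LOW_stmt :=
  QWF (QW1 QW0) (QW6 QW3 (QW4 QW3 hZ3) (QW5 hA1 hA2) hR2 hA3) (QW7 (QW2 QW0) QW9)
    (QW8 (QW2 QW0) QW9) QW9 QWA

end Pool.Agent.helper53.AU
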