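import Pool.Agent.helper75.AU.SpecR
import Pool.Agent.helper53.AU.SpecG3

/-!
# Project au: Case I (beginning of section 9): from `Six`, `CaseI` to the class PL and Theorem G
-/

set_option linter.unusedVariables false

namespace Pool.Agent.helper75.AU

open scoped Classical
open Pool.Agent.helper53.AU MulAction

noncomputable section

/-- BLO: Lemma O in the form of SpecR (from helper53's LO, with `X = ⊤`). -/
def BLO_stmt : Prop := Pool.Agent.helper53.AU.LO_stmt → Pool.Agent.helper75.AU.LO_stmt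

/-- BSS: (S1) in the form of SpecR (from SR with `E = ⊥`; `A` is regular since it is abelian, transitive and
the action is faithful; `r` a prime divisor of `|Om|`, which is composite; `|Om| ≤ 1` is trivial). -/
def BSS_stmt : Prop := Pool.Agent.helper53.AU.SR_stmt → SS1_stmt

/-- BBU: Burnside in the form of SpecR. -/
def BBU_stmt : Prop := Pool.Agent.helper53.AU.BU_stmt → Pool.Agent.helper75.AU.BU_stmt

/-- QU: a nonabelian 2-group `S` with a cyclic subgroup `C` of index 2 and exactly one involution `z` (in `C`):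
`4 ∣ |C|`, every `s ∈ S \ C` has `s² = z` and inverts `C`. Proof: `a` a generator of `C`, `|C| = 2^m`,
`s a s⁻¹ = a^k`, `k² = 1` mod `2^m` (`s² ∈ C`), `s² = a^r` with `r(k-1) = 0` mod `2^m`, `(s a^j)² = a^{r+(k+1)j}`
(up to the sign conventions). `k ≠ 1`. `k = -1 + 2^{m-1}` (`m ≥ 3`): `s² ∈ {1,z}` and some `s a^j` is an
involution; `k = 1 + 2^{m-1}` (`m ≥ 3`): `r` is even and `r + (k+1) j = 0` is solvable. So `k = -1`, `a^{2r} = 1`. -/
def QU_stmt : Prop := ∀ (W : Type) [Group W] [Finite W] (S C : Subgroup W) (z : W), IsPGroup 2 S → C ≤ S →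
  IsCyclic C → Nat.card S = 2 * Nat.card C → z ∈ C → z * z = 1 → z ≠ 1 →
  (∀ t ∈ S, t * t = 1 → t = 1 ∨ t = z) → ⁅S, S⁆ ≠ ⊥ →
  4 ∣ Nat.card C ∧ ∀ s ∈ S, s ∉ C → s * s = z ∧ ∀ a ∈ C, s * a * s⁻¹ = a⁻¹

/-- IV: in Case I: `z = c^{e'/2}` is an involution of `K_1`, not in `R_3 = K_1 ∩ P`, `|K_1| = 2 |R_3|`, and every
involution of `G_1` lies in `K_1`. (An involution fixes a point (F3b); not one of the orbit of `x`
(`|B_1| = q h'` is odd), so it is conjugate into `P_y : C`, so to the involution `z` of `C`.) -/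
def IV_stmt : Prop := ∀ (k G X : Type) [Field k] [CharP k 3] [Group G] [Fintype G] [MulAction G X] [Fintype X]
  (l : ℕ) (R : Ram k G X (l + 1)) (x y : X) (c : G) (u h' e' u₁ : ℕ), Special l → Six R x y c u h' e' u₁ →
  CaseI G c h' e' u₁ →
  c ^ (e' / 2) ∈ K1 G ∧ c ^ (e' / 2) ≠ 1 ∧ c ^ (e' / 2) * c ^ (e' / 2) = 1 ∧ c ^ (e' / 2) ∉ R.P x ∧
  Nat.card (K1 G) = 2 * Nat.card (K1 G ⊓ R.P x : Subgroup G) ∧
  ∀ t ∈ thr G, t * t = 1 → t ∈ K1 G

/-- ID: in Case I: `4 ∣ e'`, and there is `s ∈ G_1` with `s² = z = c^{e'/2}`, which inverts the 2-part of `C = ⟨c⟩`, and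
`s ∉ C K_1`. (`S` a Sylow 2-subgroup of `G_1` containing the 2-part `C_2` of `C`, `|S| = 2 |C_2|` because
`|G_1| = 2 q e' h'`; all involutions of `S` are in `K_1`, `|K_1 ∩ S| = 2`: only `z`; `z ∈ S'` by `k1t`; QU.) -/
def ID_stmt : Prop := ∀ (k G X : Type) [Field k] [CharP k 3] [Group G] [Fintype G] [MulAction G X] [Fintype X]
  (l : ℕ) (R : Ram k G X (l + 1)) (x y : X) (c : G) (u h' e' u₁ : ℕ), Special l → Six R x y c u h' e' u₁ →
  CaseI G c h' e' u₁ →
  4 ∣ e' ∧ ∃ s ∈ thr G, s * s = c ^ (e' / 2) ∧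
    (∀ a ∈ Subgroup.zpowers c, (∃ n : ℕ, a ^ (2 ^ n) = 1) → s * a * s⁻¹ = a⁻¹) ∧
    ∀ n : ℕ, ∀ v ∈ K1 G, s ≠ c ^ n * v

/-- IGP: in Case I the image `L` of `G_1` in `Perm Omega` is in the class PL (with `A` = the image of `C`);
`|L_α| = (q/|R_3|) h'`. (`L_α` = image of `N_{G_1}(P)` = image of `B_1` (index 2, `z ∈ K_1` outside `B_1`); BA2.) -/
def IGP_stmt : Prop := ∀ (k G X : Type) [Field k] [CharP k 3] [Group G] [Fintype G] [MulAction G X] [Fintype X]
  (l : ℕ) (R : Ram k G X (l + 1)) (x y : X) (c : G) (u h' e' u₁ : ℕ), Special l → Six R x y c u h' e' u₁ →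
  CaseI G c h' e' u₁ →
  ∃ A : Subgroup ((thr G).map (ph G).rangeRestrict),
    PL ((thr G).map (ph G).rangeRestrict) (Sylow 3 G) A ∧
    GenThree ((thr G).map (ph G).rangeRestrict) ∧ ((thr G).map (ph G).rangeRestrict).Normal ∧
    ⁅(⊤ : Subgroup (ph G).range), (thr G).map (ph G).rangeRestrict⁆ = (thr G).map (ph G).rangeRestrict ∧
    ∀ α : Sylow 3 G, ∃ j : ℕ, 3 ^ j ∣ qq R x ∧
      Nat.card (stabilizer ((thr G).map (ph G).rangeRestrict) α) = 3 ^ j * h'

/-- IGA: `e' = 4` is impossible in Case I. (`|L_α| ∣ 3!` (faithful on 4 points, fixes one) and is odd, so `|L_α| = 3`, `h' = 1`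
(`3 ∤ h'`; `L_α ≠ 1` since `q_hat > 1`: P is not normal), `|P : R_3| = 3`; `N = 8 q h`, `l ≥ 4(T-1) - q` by `Two.rh`,
C4 with `Q = R_3`: `3T + 3 ≥ q h + q`; `N > 8(l+1)` gives `q(h+1) < 21`, so `N < 168`.) -/
def IGA_stmt : Prop := ∀ (k G X : Type) [Field k] [CharP k 3] [Group G] [Fintype G] [MulAction G X] [Fintype X]
  (l : ℕ) (R : Ram k G X (l + 1)) (x y : X) (c : G) (u h' e' u₁ : ℕ), Special l → Six R x y c u h' e' u₁ →
  CaseI G c h' e' u₁ → e' ≠ 4

/-- IGF: assembly of Case I: from IGP, RS, Theorem G, IGA. (`3^j h' = 3^m (3^m-1)/2`, `3 ∤ h'`; `3^m ∣ q ≤ l+2`.) -/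
def IGF_stmt : Prop := IGP_stmt → IGA_stmt → RS_stmt → TG_stmt → F2_stmt → BA1_stmt → IG_stmt

end

end Pool.Agent.helper75.AU
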