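import Pool.Agent.helper75.AU.DefsR

/-!
# Project au (MP_97532f_ag): statements of sections 3, 4, 5, 6, 8, 12

Every module `XX` proves `XX_stmt` (other statements may be taken as hypotheses).
-/

set_option linter.unusedVariables false

namespace Pool.Agent.helper75.AU

open scoped Classical
open Pool.Agent.helper53.AU MulAction

noncomputable section

/-! ## BA: basic facts -/

/-- BA1: the groups `P_x`, the orders `q_x`, `h_x`, the complement.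
(3-elements of the stabiliser lie in `P_x` because `kˣ` has no element of order 3; `θ_x(G_x)` is cyclic: finite subgroup of a field.) -/
def BA1_stmt : Prop := ∀ (k G X : Type) [Field k] [CharP k 3] [Group G] [Fintype G] [MulAction G X] [Fintype X]
  (g : ℕ) (R : Ram k G X g) (x : X),
  IsPGroup 3 (R.P x) ∧
  (∀ s : G, s ∈ R.P x ↔ s • x = x ∧ (s = 1 ∨ 1 ≤ R.i x s)) ∧
  (∀ s : G, s • x = x → (∃ n : ℕ, s ^ (3 ^ n) = 1) → s ∈ R.P x) ∧
  (∀ a s : G, a * s * a⁻¹ ∈ R.P (a • x) ↔ s ∈ R.P x) ∧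
  (∀ a s : G, a • x = x → s ∈ R.P x → a * s * a⁻¹ ∈ R.P x) ∧
  (∀ a : G, qq R (a • x) = qq R x ∧ hh R (a • x) = hh R x ∧ R.T (a • x) = R.T x) ∧
  Nat.card (stabilizer G x) = qq R x * hh R x ∧ ¬ 3 ∣ hh R x ∧ (∃ m : ℕ, qq R x = 3 ^ m) ∧
  ∃ c : G, IsC R x c

/-- BA2: every subgroup `H ∩ G_x` is `(H ∩ P_x) : cyclic`. -/
def BA2_stmt : Prop := ∀ (k G X : Type) [Field k] [CharP k 3] [Group G] [Fintype G] [MulAction G X] [Fintype X]
  (g : ℕ) (R : Ram k G X g) (x : X) (H : Subgroup G),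
  (∃ c ∈ H ⊓ stabilizer G x,
    Nat.card (H ⊓ stabilizer G x : Subgroup G) = Nat.card (H ⊓ R.P x : Subgroup G) * orderOf c ∧
    ¬ 3 ∣ orderOf c ∧ ∀ s ∈ H ⊓ stabilizer G x, ∃ p ∈ H ⊓ R.P x, ∃ n : ℕ, s = p * c ^ n) ∧
  (H ≤ stabilizer G x → H ⊓ R.P x = ⊥ → IsCyclic H)

/-- BA3: the numbers `T_x(H)`, `d_x(H)`. (Evenness: `s ↦ s⁻¹` has no fixed point on `P_x \ 1`.) -/
def BA3_stmt : Prop := ∀ (k G X : Type) [Field k] [CharP k 3] [Group G] [Fintype G] [MulAction G X] [Fintype X]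
  (g : ℕ) (R : Ram k G X g) (x : X) (H : Subgroup G),
  2 ∣ TS R H x ∧
  Nat.card (H ⊓ R.P x : Subgroup G) ≤ TS R H x + 1 ∧
  R.d H x + 1 = Nat.card (H ⊓ stabilizer G x : Subgroup G) + TS R H x ∧
  (R.P x ≤ H → TS R H x = R.T x) ∧
  TS R H x ≤ R.T x ∧
  (H ⊓ R.P x = ⊥ → TS R H x = 0) ∧
  (H ⊓ stabilizer G x = ⊥ → R.d H x = 0) ∧
  (∀ a : G, (∀ s : G, a * s * a⁻¹ ∈ H ↔ s ∈ H) →
    R.d H (a • x) = R.d H x ∧ TS R H (a • x) = TS R H x) ∧
  2 ∣ R.T x ∧ qq R x ≤ R.T x + 1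

/-- BA4: sums over orbits of an invariant function -/
def BA4_stmt : Prop := ∀ (G X : Type) [Group G] [Fintype G] [MulAction G X] [Fintype X],
  (∀ x : X, oo G x * Nat.card (stabilizer G x) = Nat.card G) ∧
  (∀ (f : X → ℤ) (x : X), (∀ (a : G) (z : X), f (a • z) = f z) →
    (∀ z : X, z ∉ orbit G x → f z = 0) → ∑ z : X, f z = oo G x * f x) ∧
  (∀ (f : X → ℤ) (x y : X), (∀ (a : G) (z : X), f (a • z) = f z) → (∀ a : G, a • x ≠ y) →
    (∀ z : X, z ∉ orbit G x → z ∉ orbit G y → f z = 0) → ∑ z : X, f z = oo G x * f x + oo G y * f y) ∧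
  (∀ (f : X → ℤ) (x y w : X), (∀ (a : G) (z : X), f (a • z) = f z) → (∀ a : G, a • x ≠ y) →
    (∀ a : G, a • x ≠ w) → (∀ a : G, a • y ≠ w) →
    (∀ z : X, z ∉ orbit G x → z ∉ orbit G y → z ∉ orbit G w → f z = 0) →
    ∑ z : X, f z = oo G x * f x + oo G y * f y + oo G w * f w)

/-- BA5: we may adjoin a free orbit (`X' = X ⊕ G`; on `G` the data are trivial). -/
def BA5_stmt : Prop := ∀ (k G X : Type) [Field k] [Group G] [Fintype G] [MulAction G X] [Fintype X]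
  (g : ℕ) (_ : Ram k G X g), ∃ (X' : Type) (_ : MulAction G X') (_ : Fintype X') (_ : Ram k G X' g) (z : X'),
    stabilizer G z = ⊥

/-- C3: consequences of (L3). `c` generates a complement of `P_x`.
(2) sum over the orbits of `⟨c⟩` on `P_x \ 1` and (1) with `n` = orbit length; (4) from (1). -/
def C3_stmt : Prop := ∀ (k G X : Type) [Field k] [CharP k 3] [Group G] [Fintype G] [MulAction G X] [Fintype X]
  (g : ℕ) (R : Ram k G X g) (x : X) (c : G), IsC R x c →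
  (∀ s ∈ R.P x, s ≠ 1 → ∀ n : ℕ, c ^ n * s = s * c ^ n → hh R x ∣ n * R.i x s) ∧
  hh R x ∣ R.T x ∧
  (∀ s ∈ R.P x, s ≠ 1 → ∀ n : ℕ, hh R x ∣ n * R.i x s →
    c ^ n * s * (c ^ n)⁻¹ * s⁻¹ = 1 ∨ R.i x s < R.i x (c ^ n * s * (c ^ n)⁻¹ * s⁻¹)) ∧
  (∀ m : G → ℕ, (∀ s ∈ R.P x, s ≠ 1 → 0 < m s ∧ c ^ (m s) * s = s * c ^ (m s)) →
    ∑ s ∈ Finset.univ.filter (fun s : G => s ∈ R.P x ∧ s ≠ 1), (hh R x : ℚ) / (m s : ℚ) ≤ (R.T x : ℚ))

/-- C4: (L4). `T ≥ q h/3 + q/3 - 1`, and `T ≥ 2 q h/3 + q/3 - 1` if `G_x` centralises `P_x / Q`. -/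
def C4_stmt : Prop := ∀ (k G X : Type) [Field k] [CharP k 3] [Group G] [Fintype G] [MulAction G X] [Fintype X]
  (g : ℕ) (R : Ram k G X g) (x : X) (Q : Subgroup G), Q ≤ R.P x →
  (∀ c ∈ stabilizer G x, ∀ s ∈ Q, c * s * c⁻¹ ∈ Q) → Nat.card (R.P x) = 3 * Nat.card Q →
  qq R x * hh R x + qq R x ≤ 3 * R.T x + 3 ∧
  ((∀ c ∈ stabilizer G x, ∀ s ∈ R.P x, c * s * c⁻¹ * s⁻¹ ∈ Q) →
    2 * (qq R x * hh R x) + qq R x ≤ 3 * R.T x + 3)

/-! ## Section 3 -/

/-- F1: (3.1). RH for `⟨z⟩`, `z` central in `S` of order 3; then `S` acts on `{x ∈ Fix z, class 1}`. -/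
def F1_stmt : Prop := ∀ (k G X : Type) [Field k] [CharP k 3] [Group G] [Fintype G] [MulAction G X] [Fintype X]
  (l : ℕ) (R : Ram k G X (l + 1)) (S : Subgroup G), l % 3 = 1 → IsPGroup 3 S → S ≠ ⊥ →
  Nat.card {x : X // (∀ s ∈ S, s • x = x) ∧ Cl1 R x} % 3 = 2 ∧
  ∃ x x' : X, x ≠ x' ∧ (∀ s ∈ S, s • x = x) ∧ (∀ s ∈ S, s • x' = x') ∧ Cl1 R x ∧ Cl1 R x'

/-- F2: (3.2). RH for `S`. -/
def F2_stmt : Prop := ∀ (k G X : Type) [Field k] [CharP k 3] [Group G] [Fintype G] [MulAction G X] [Fintype X]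
  (l : ℕ) (R : Ram k G X (l + 1)) (S : Subgroup G), IsPGroup 3 S →
  (∀ x x' : X, x ≠ x' → (∀ s ∈ S, s • x = x) → (∀ s ∈ S, s • x' = x') →
    TS R S x + TS R S x' ≤ 2 * (l + 1)) ∧
  (l % 3 = 1 → Nat.card S ≤ l + 2)

/-- F3a: (3.3), primes `r ≥ 5`, `r ≠ l`. -/
def F3a_stmt : Prop := ∀ (k G X : Type) [Field k] [CharP k 3] [Group G] [Fintype G] [MulAction G X] [Fintype X]
  (l : ℕ) (R : Ram k G X (l + 1)) (r : ℕ) (Q : Subgroup G), l.Prime → r.Prime → 5 ≤ r → r ≠ l →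
  IsPGroup r Q → (Q = ⊥ ∨ ∃ x : X, ∀ s ∈ Q, s • x = x) ∧ IsCyclic Q

/-- F3b: (3.3), the prime 2. -/
def F3b_stmt : Prop := ∀ (k G X : Type) [Field k] [CharP k 3] [Group G] [Fintype G] [MulAction G X] [Fintype X]
  (l : ℕ) (R : Ram k G X (l + 1)), l % 2 = 1 →
  (∀ Q : Subgroup G, IsPGroup 2 Q → ∃ A : Subgroup G, A ≤ Q ∧ IsCyclic A ∧ Nat.card Q ≤ 2 * Nat.card A ∧
    (Q = ⊥ ∨ ∃ x : X, ∀ s ∈ A, s • x = x)) ∧
  (∀ t : G, t * t = 1 → t ≠ 1 → ∃ x : X, t • x = x)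

/-- F3c: (3.3), the prime `l`. -/
def F3c_stmt : Prop := ∀ (k G X : Type) [Field k] [CharP k 3] [Group G] [Fintype G] [MulAction G X] [Fintype X]
  (l : ℕ) (R : Ram k G X (l + 1)), l.Prime → 5 < l →
  (∀ s : G, orderOf s = l → ∀ x : X, s • x ≠ x) ∧ (∀ x : X, ¬ l ∣ Nat.card (stabilizer G x)) ∧
  ¬ l ^ 2 ∣ Nat.card G

/-- F4: (3.4) with condition (R). (`c` acts on `Q`; all orbits not fixed have length divisible by `r`;
`|Q| = |C_Q(c)|` mod `r`.) -/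
def F4_stmt : Prop := ∀ (k G X : Type) [Field k] [CharP k 3] [Group G] [Fintype G] [MulAction G X] [Fintype X]
  (l : ℕ) (R : Ram k G X (l + 1)) (r : ℕ) (c : G) (Q : Subgroup G), Special l → r.Prime → 5 ≤ r →
  (r ∣ l + 1 ∨ r ∣ l + 2) → (∃ n : ℕ, c ^ (r ^ n) = 1) → IsPGroup 3 Q →
  (∀ s ∈ Q, c * s * c⁻¹ ∈ Q) → ∀ s ∈ Q, c * s = s * c

/-! ## Section 4 -/

/-- T4: the types. (`z` is a point with trivial stabiliser.) -/
def T4_stmt : Prop := ∀ (k G X : Type) [Field k] [CharP k 3] [Group G] [Fintype G] [MulAction G X] [Fintype X]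
  (l : ℕ) (R : Ram k G X (l + 1)) (z : X), Special l → stabilizer G z = ⊥ → 8 * (l + 1) < Nat.card G →
  (∃ x y : X, Two R x y) ∨ (∃ x y y' : X, TypD R x y y') ∨ ∃ y₁ y₂ y₃ : X, TypT R y₁ y₂ y₃

/-- T5: numerical classification of the tame types (`e_i = |G_{y_i}|`, `e_i ∣ N`, `3 ∤ e_i`,
`2l = N - ∑ N/e_i`). -/
def T5_stmt : Prop := ∀ (k G X : Type) [Field k] [CharP k 3] [Group G] [Fintype G] [MulAction G X] [Fintype X]
  (l : ℕ) (R : Ram k G X (l + 1)) (y₁ y₂ y₃ : X), Special l → 8 * (l + 1) < Nat.card G → TypT R y₁ y₂ y₃ →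
  (Nat.card G = 10 * l ∨ Nat.card G = 16 * l ∨ Nat.card G = 20 * l ∨ Nat.card G = 40 * l) ∨
  (Nat.card G = 8 * (l + 4) ∧ ∃ y : X, Nat.card (stabilizer G y) = l + 4 ∧
    ∀ z : X, z ∉ orbit G y → Nat.card (stabilizer G z) ∣ 4)

/-- T7: the type `(2,4,l+4)` is impossible. (4.1) -/
def T7_stmt : Prop := ∀ (k G X : Type) [Field k] [CharP k 3] [Group G] [Fintype G] [MulAction G X] [Fintype X]
  (l : ℕ) (R : Ram k G X (l + 1)) (y : X), Special l → Nat.card G = 8 * (l + 4) →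
  Nat.card (stabilizer G y) = l + 4 → (∀ z : X, z ∉ orbit G y → Nat.card (stabilizer G z) ∣ 4) → False

/-- LM: `Λ` normal of order `l`, `M` its centraliser: the quotient by `M` has positive genus.
(`M = Λ × M'`, RH for `M` and `M'`: `M_x = M'_x`.) -/
def LM_stmt : Prop := ∀ (k G X : Type) [Field k] [CharP k 3] [Group G] [Fintype G] [MulAction G X] [Fintype X]
  (l : ℕ) (R : Ram k G X (l + 1)) (Lam : Subgroup G), Special l → Lam.Normal → Nat.card Lam = l →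
  (∑ x : X, R.d (Subgroup.centralizer (Lam : Set G)) x ≤ 2 * l) ∧
  (Subgroup.centralizer (Lam : Set G)).Normal ∧
  (Subgroup.centralizer (Lam : Set G)).index ∣ l - 1 ∧
  (Subgroup.centralizer (Lam : Set G)).index * l ∣ Nat.card G ∧
  (∀ a b : G, a * b * a⁻¹ * b⁻¹ ∈ Subgroup.centralizer (Lam : Set G))

/-- T6: tame type, `l ∣ N`, `N/l ≤ 40`. (4.1) -/
def T6_stmt : Prop := ∀ (k G X : Type) [Field k] [CharP k 3] [Group G] [Fintype G] [MulAction G X] [Fintype X]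
  (l : ℕ) (R : Ram k G X (l + 1)) (y₁ y₂ y₃ : X), Special l → TypT R y₁ y₂ y₃ →
  (Nat.card G = 10 * l ∨ Nat.card G = 16 * l ∨ Nat.card G = 20 * l ∨ Nat.card G = 40 * l) → False

/-- NUM: the numerical data of types (A), (B), (C). -/
def NUM_stmt : Prop := ∀ (k G X : Type) [Field k] [CharP k 3] [Group G] [Fintype G] [MulAction G X] [Fintype X]
  (l : ℕ) (R : Ram k G X (l + 1)) (x y : X), Special l → Two R x y → ∃ D u h' e' : ℕ, Num R x y D u h' e'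

/-- W1: (4.2). `Λ` normal of order `l`, wild: `q = 3`, `T = 2`. (RH for `Λ⟨z⟩` and `ΛS`.) -/
def W1_stmt : Prop := ∀ (k G X : Type) [Field k] [CharP k 3] [Group G] [Fintype G] [MulAction G X] [Fintype X]
  (l : ℕ) (R : Ram k G X (l + 1)) (Lam : Subgroup G), Special l → Lam.Normal → Nat.card Lam = l →
  (¬ 9 ∣ Nat.card G) ∧ ∀ x : X, R.P x ≠ ⊥ → qq R x = 3 ∧ R.T x = 2 ∧ (hh R x = 1 ∨ hh R x = 2)

/-- W2: (4.2), end. -/
def W2_stmt : Prop := ∀ (k G X : Type) [Field k] [CharP k 3] [Group G] [Fintype G] [MulAction G X] [Fintype X]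
  (l : ℕ) (R : Ram k G X (l + 1)) (Lam : Subgroup G), Special l → Lam.Normal → Nat.card Lam = l →
  8 * (l + 1) < Nat.card G → ((∃ x y : X, Two R x y) ∨ ∃ x y y' : X, TypD R x y y') → False

/-- W3: (4.3): if `l ∣ N` then the Sylow `l`-subgroup is normal (condition (N)). -/
def W3_stmt : Prop := ∀ (k G X : Type) [Field k] [CharP k 3] [Group G] [Fintype G] [MulAction G X] [Fintype X]
  (l : ℕ) (R : Ram k G X (l + 1)), Special l → l ∣ Nat.card G →
  8 * (l + 1) < Nat.card G → ((∃ x y : X, Two R x y) ∨ ∃ x y y' : X, TypD R x y y') →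
  ∃ Lam : Subgroup G, Lam.Normal ∧ Nat.card Lam = l

/-! ## Section 5 -/

/-- P5D: type (D) is impossible. -/
def P5D_stmt : Prop := ∀ (k G X : Type) [Field k] [CharP k 3] [Group G] [Fintype G] [MulAction G X] [Fintype X]
  (l : ℕ) (R : Ram k G X (l + 1)) (x y y' : X), Special l → 8 * (l + 1) < Nat.card G → ¬ l ∣ Nat.card G →
  TypD R x y y' → False

/-- P5A: type (A) is impossible. -/
def P5A_stmt : Prop := ∀ (k G X : Type) [Field k] [CharP k 3] [Group G] [Fintype G] [MulAction G X] [Fintype X]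
  (l : ℕ) (R : Ram k G X (l + 1)) (x y : X), Special l → 8 * (l + 1) < Nat.card G → ¬ l ∣ Nat.card G →
  Two R x y → stabilizer G y = ⊥ → False

/-- P5B: type (B), `P_x` normal, is impossible. (RH for `P_x`.) -/
def P5B_stmt : Prop := ∀ (k G X : Type) [Field k] [CharP k 3] [Group G] [Fintype G] [MulAction G X] [Fintype X]
  (l : ℕ) (R : Ram k G X (l + 1)) (x y : X), Special l → Two R x y → R.P y = ⊥ → (R.P x).Normal → False

/-- P5C: type (C), `P_x` normal, is impossible. -/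
def P5C_stmt : Prop := ∀ (k G X : Type) [Field k] [CharP k 3] [Group G] [Fintype G] [MulAction G X] [Fintype X]
  (l : ℕ) (R : Ram k G X (l + 1)) (x y : X), Special l → 8 * (l + 1) < Nat.card G → ¬ l ∣ Nat.card G →
  Two R x y → R.P y ≠ ⊥ → (R.P x).Normal → False

/-- S45: summary of sections 4 and 5. -/
def S45_stmt : Prop := ∀ (k G X : Type) [Field k] [CharP k 3] [Group G] [Fintype G] [MulAction G X] [Fintype X]
  (l : ℕ) (R : Ram k G X (l + 1)), Special l → 8 * (l + 1) < Nat.card G →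
  ¬ l ∣ Nat.card G ∧ ∃ (X' : Type) (_ : MulAction G X') (_ : Fintype X') (R' : Ram k G X' (l + 1)) (x y : X'),
    Two R' x y ∧ stabilizer G y ≠ ⊥ ∧ ¬ (R'.P x).Normal

/-! ## Section 6 -/

/-- S61: (6.1). RH for `G_1`. -/
def S61_stmt : Prop := ∀ (k G X : Type) [Field k] [CharP k 3] [Group G] [Fintype G] [MulAction G X] [Fintype X]
  (l : ℕ) (R : Ram k G X (l + 1)) (x y : X), Special l → Two R x y →
  (∀ a : G, ∃ b ∈ thr G, b • x = a • x) ∧ (∀ a : G, ∃ b ∈ thr G, b • y = a • y) ∧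
  (thr G).index * Nat.card (stabilizer G x ⊓ thr G : Subgroup G) = Nat.card (stabilizer G x) ∧
  (thr G).index * Nat.card (stabilizer G y ⊓ thr G : Subgroup G) = Nat.card (stabilizer G y) ∧
  (∃ a : G, ∀ b : G, ∃ n : ℕ, ∃ t ∈ thr G, b = a ^ n * t) ∧ ∀ z : X, R.P z ≤ thr G

/-- TR: a consequence of the transfer. `S` a Sylow `r`-subgroup of `W`, `z ∈ S` such that all conjugates
of powers of `z` in `W` that lie in `S` are trivial conjugates, and `z ∈ W'`: then `z ∈ S'`. -/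
def TR_stmt : Prop := ∀ (W : Type) [Group W] [Finite W] (r : ℕ) (S : Subgroup W) (z : W), r.Prime →
  IsPGroup r S → ¬ r ∣ S.index → z ∈ S → z ∈ ⁅(⊤ : Subgroup W), (⊤ : Subgroup W)⁆ →
  (∀ (w : W) (n : ℕ), w * z ^ n * w⁻¹ ∈ S → w * z ^ n * w⁻¹ = z ^ n) → z ∈ ⁅S, S⁆

/-- ZS: a 2-group with a cyclic subgroup of index at most 2: `S' ∩ Z(S)` has order at most 2. -/
def ZS_stmt : Prop := ∀ (W : Type) [Group W] [Finite W] (S A Z : Subgroup W), IsPGroup 2 S → A ≤ S → IsCyclic A →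
  Nat.card S ≤ 2 * Nat.card A → Z ≤ ⁅S, S⁆ → (∀ z ∈ Z, ∀ s ∈ S, z * s = s * z) → Nat.card Z ≤ 2

/-- S62: (6.2). -/
def S62_stmt : Prop := ∀ (k G X : Type) [Field k] [CharP k 3] [Group G] [Fintype G] [MulAction G X] [Fintype X]
  (l : ℕ) (R : Ram k G X (l + 1)) (x : X), Special l → ¬ l ∣ Nat.card G →
  (∃ S : Sylow 3 G, (S : Subgroup G) = R.P x) →
  (∀ z ∈ K1 G, ∀ s ∈ thr G, z * s * z⁻¹ * s⁻¹ ∈ K1 G ⊓ R.P x) ∧
  (K1 G ⊓ R.P x).Normal ∧
  (∀ S : Sylow 3 G, K1 G ⊓ (S : Subgroup G) = K1 G ⊓ R.P x) ∧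
  (Nat.card (K1 G) ≤ 2 * Nat.card (K1 G ⊓ R.P x : Subgroup G)) ∧
  (∀ S : Subgroup G, S ≤ thr G → IsPGroup 2 S → ¬ 2 ∣ S.relIndex (thr G) →
    ∀ z ∈ S ⊓ K1 G, z ∈ ⁅S, S⁆)

/-- N1: the numbers for `G_1`: `h = n_1 h_1`, `e = n_1 e_1`, `u = n_1 u_1`, `h_1 = u_1 h'`, `e_1 = u_1 e'`. -/
def N1_stmt : Prop := ∀ (k G X : Type) [Field k] [CharP k 3] [Group G] [Fintype G] [MulAction G X] [Fintype X]
  (l : ℕ) (R : Ram k G X (l + 1)) (x y : X) (D u h' e' : ℕ), Special l → Two R x y → Num R x y D u h' e' →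
  ∃ u₁ : ℕ, 0 < u₁ ∧ u = (thr G).index * u₁ ∧ Nat.card (thr G) = D * qq R x * u₁ * e' * h' ∧
    Nat.card (stabilizer G x ⊓ thr G : Subgroup G) = qq R x * u₁ * h' ∧
    Nat.card (stabilizer G y ⊓ thr G : Subgroup G) = qq R y * (u₁ * e') ∧
    ∃ c ∈ stabilizer G y ⊓ thr G, orderOf c = u₁ * e' ∧
      ∀ s ∈ stabilizer G y ⊓ thr G, ∃ p ∈ R.P y, ∃ n : ℕ, s = p * c ^ n

/-- CO: the orbits of `C = ⟨c⟩` on `O` have length divisible by `e'`. -/
def CO_stmt : Prop := ∀ (k G X : Type) [Field k] [CharP k 3] [Group G] [Fintype G] [MulAction G X] [Fintype X]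
  (l : ℕ) (R : Ram k G X (l + 1)) (x : X) (u₁ h' e' : ℕ) (c : G), Nat.Coprime h' e' → 0 < u₁ → 0 < h' → 0 < e' →
  Nat.card (stabilizer G x ⊓ thr G : Subgroup G) = qq R x * u₁ * h' → c ∈ thr G → orderOf c = u₁ * e' →
  ¬ 3 ∣ u₁ * e' → ∀ z ∈ orbit G x, ∀ n : ℕ, c ^ n • z = z → e' ∣ n

/-- PI: the fibration `O → Omega`, `z ↦ P_z`. -/
def PI_stmt : Prop := ∀ (k G X : Type) [Field k] [CharP k 3] [Group G] [Fintype G] [MulAction G X] [Fintype X]
  (l : ℕ) (R : Ram k G X (l + 1)) (x : X), (∃ S : Sylow 3 G, (S : Subgroup G) = R.P x) → R.P x ≠ ⊥ →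
  ∃ (f : ℕ) (pi : {z : X // z ∈ orbit G x} → Sylow 3 G),
    (∀ z, ((pi z : Sylow 3 G) : Subgroup G) = R.P z.1) ∧
    (∀ S : Sylow 3 G, Nat.card {z : X // z ∈ orbit G x ∧ R.P z = (S : Subgroup G)} = f) ∧
    0 < f ∧ oo G x = f * Nat.card (Sylow 3 G) ∧
    (∀ z : X, z ∈ orbit G x → (R.P z = R.P x ↔ ∀ s ∈ R.P x, s • z = z)) ∧
    ((∀ a : G, ∃ b ∈ thr G, b • x = a • x) →
      Nat.card (Subgroup.normalizer (R.P x : Set G) ⊓ thr G : Subgroup G) =
        f * Nat.card (stabilizer G x ⊓ thr G : Subgroup G))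

/-- S63: (6.3): `q_2 < q`, `f = 2`, `D = 2`, `|Omega| = e'`; Case I or Case II. -/
def S63_stmt : Prop := ∀ (k G X : Type) [Field k] [CharP k 3] [Group G] [Fintype G] [MulAction G X] [Fintype X]
  (l : ℕ) (R : Ram k G X (l + 1)) (x y : X) (D u h' e' u₁ : ℕ) (c : G), Special l → ¬ l ∣ Nat.card G →
  Two R x y → ¬ (R.P x).Normal → Num R x y D u h' e' →
  Nat.card (stabilizer G x ⊓ thr G : Subgroup G) = qq R x * u₁ * h' →
  0 < u₁ → c ∈ stabilizer G y ⊓ thr G → orderOf c = u₁ * e' → ¬ 3 ∣ u₁ * e' →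
  qq R y < qq R x ∧ D = 2 ∧ Nat.card (Sylow 3 G) = e' ∧ 4 ≤ e' ∧ e' % 3 = 1 ∧
    (∀ S : Sylow 3 G, Nat.card {z : X // z ∈ orbit G x ∧ R.P z = (S : Subgroup G)} = 2) ∧
    (CaseI G c h' e' u₁ ∨ CaseII G c h' e' u₁)

/-- S64: (6.4), `(Z')`. -/
def S64_stmt : Prop := ∀ (k G X : Type) [Field k] [CharP k 3] [Group G] [Fintype G] [MulAction G X] [Fintype X]
  (l : ℕ) (R : Ram k G X (l + 1)) (x y : X) (u h' e' : ℕ), Special l → 8 * (l + 1) < Nat.card G →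
  Two R x y → stabilizer G y ≠ ⊥ → Num R x y 2 u h' e' → 4 ≤ e' → ⁅(⊤ : Subgroup G), thr G⁆ = thr G

/-- S6: the outcome of section 6. -/
def S6_stmt : Prop := ∀ (k G X : Type) [Field k] [CharP k 3] [Group G] [Fintype G] [MulAction G X] [Fintype X]
  (l : ℕ) (R : Ram k G X (l + 1)) (x y : X), Special l → 8 * (l + 1) < Nat.card G → ¬ l ∣ Nat.card G →
  Two R x y → stabilizer G y ≠ ⊥ → ¬ (R.P x).Normal →
  ∃ (c : G) (u h' e' u₁ : ℕ), Six R x y c u h' e' u₁ ∧ (CaseI G c h' e' u₁ ∨ CaseII G c h' e' u₁)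

/-! ## Section 8: Case II -/

/-- S80: (8.0). -/
def S80_stmt : Prop := ∀ (k G X : Type) [Field k] [CharP k 3] [Group G] [Fintype G] [MulAction G X] [Fintype X]
  (l : ℕ) (R : Ram k G X (l + 1)) (x y : X) (c : G) (u h' e' u₁ : ℕ), Six R x y c u h' e' u₁ →
  CaseII G c h' e' u₁ → K1 G ≤ stabilizer G x

/-- S8C: the abstract setting of section 8 holds in Case II (`Gam = (ph G).range`). -/
def S8C_stmt : Prop := ∀ (k G X : Type) [Field k] [CharP k 3] [Group G] [Fintype G] [MulAction G X] [Fintype X]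
  (l : ℕ) (R : Ram k G X (l + 1)) (x y : X) (c : G) (u h' e' u₁ : ℕ), Special l → Six R x y c u h' e' u₁ →
  CaseII G c h' e' u₁ →
  CtxII (ph G).range (Sylow 3 G) ((thr G).map (ph G).rangeRestrict) ((ph G).rangeRestrict c)

/-- LO: Lemma O (helper53's section 7; proved there). -/
def LO_stmt : Prop := ∀ (W Om : Type) [Group W] [Finite W] [MulAction W Om] [Finite Om] [FaithfulSMul W Om]
  (A : Subgroup W), ¬ 2 ∣ Nat.card W → IsCyclic A → (∀ a ∈ A, ∀ w : Om, a • w = w → a = 1) →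
  (∀ (v : W) (w : Om), ∃ a ∈ A, a • w = v • w) →
  (∀ w : Om, Nat.Coprime (Nat.card (stabilizer W w)) (Nat.card A)) →
  A.Normal ∧ ∀ v : W, (∀ a ∈ A, v * a = a * v) → v ∈ A

/-- II1: (8.1). No nontrivial subgroup of `⟨c⟩` is normal in `Gam`. -/
def II1_stmt : Prop := ∀ (Gam Om : Type) [Group Gam] [MulAction Gam Om] (L : Subgroup Gam) (c : Gam),
  CtxII Gam Om L c → ∀ Z : Subgroup Gam, Z ≤ Subgroup.zpowers c → Z.Normal → Z = ⊥

/-- II2: a nontrivial normal subgroup of `Gam` inside `L` has even order. (Lemma O for `E⟨c⟩`.) -/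
def II2_stmt : Prop := ∀ (Gam Om : Type) [Group Gam] [MulAction Gam Om] (L : Subgroup Gam) (c : Gam),
  CtxII Gam Om L c → ∀ E : Subgroup Gam, E.Normal → E ≤ L → E ≠ ⊥ → 2 ∣ Nat.card E

/-- II3: `L / E` has odd order. -/
def II3_stmt : Prop := ∀ (Gam Om : Type) [Group Gam] [MulAction Gam Om] (L : Subgroup Gam) (c : Gam),
  CtxII Gam Om L c → ∀ E : Subgroup Gam, E.Normal → E ≤ L → E ≠ ⊥ → ¬ 2 ∣ E.relIndex L

/-- II4: `E` is transitive. (Lemma O for the action of `L` on the set of `E`-orbits.) -/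
def II4_stmt : Prop := ∀ (Gam Om : Type) [Group Gam] [MulAction Gam Om] (L : Subgroup Gam) (c : Gam),
  CtxII Gam Om L c → ∀ E : Subgroup Gam, E.Normal → E ≤ L → E ≠ ⊥ → ∀ a b : Om, ∃ v ∈ E, v • a = b

/-- FH: Frattini argument for a cyclic Hall subgroup `A` of the normal subgroup `E`. -/
def FH_stmt : Prop := ∀ (W : Type) [Group W] [Finite W] (E A : Subgroup W), E.Normal → A ≤ E → IsCyclic A →
  Nat.Coprime (Nat.card A) (A.relIndex E) → ∀ w : W, ∃ e ∈ E, ∀ a ∈ A, (e * w) * a * (e * w)⁻¹ ∈ A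

/-- II5: `E = L`. -/
def II5_stmt : Prop := ∀ (Gam Om : Type) [Group Gam] [MulAction Gam Om] (L : Subgroup Gam) (c : Gam),
  CtxII Gam Om L c → ∀ E : Subgroup Gam, E.Normal → E ≤ L → E ≠ ⊥ → E = L

/-- II6: `L` is primitive. -/
def II6_stmt : Prop := ∀ (Gam Om : Type) [Group Gam] [MulAction Gam Om] (L : Subgroup Gam) (c : Gam),
  CtxII Gam Om L c → Prim L Om

/-- SS1: Lemma (S1) (helper53's section 7; proved there). -/
def SS1_stmt : Prop := ∀ (W Om : Type) [Group W] [Finite W] [MulAction W Om] [Finite Om] [FaithfulSMul W Om]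
  (A : Subgroup W), Prim W Om → IsCyclic A → (∀ a b : Om, ∃ v ∈ A, v • a = b) → ¬ (Nat.card Om).Prime →
  TwoTrans W Om

/-- BU: Burnside's theorem on transitive groups of prime degree (Lemma B; helper53's section 7). -/
def BU_stmt : Prop := ∀ (W Om : Type) [Group W] [Finite W] [MulAction W Om] [Finite Om] [FaithfulSMul W Om]
  (A : Subgroup W), (Nat.card Om).Prime → Nat.card A = Nat.card Om → IsPretransitive W Om →
  TwoTrans W Om ∨ A.Normal

/-- II7: the abstract conclusion: `L` is 2-transitive. (II6, then SS1 or BU; if `⟨c⟩` is normal in `L` it is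
`{v ∈ L : v ^ |Om| = 1}`, so normal in `Gam`.) -/
def II7_stmt : Prop := ∀ (Gam Om : Type) [Group Gam] [MulAction Gam Om] (L : Subgroup Gam) (c : Gam),
  CtxII Gam Om L c → TwoTrans L Om

/-- MK: the matrix `K` of (8.5): if no element fixes `x` and swaps the fibre of `y` then there is an
invariant, odd, `±1`-valued function off the diagonal. -/
def MK_stmt : Prop := ∀ (L O Om : Type) [Group L] [Finite L] [MulAction L O] [MulAction L Om] [Finite O]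
  [Finite Om] (pi : O → Om) (sw : O → O), (∀ (v : L) (x : O), pi (v • x) = v • pi x) →
  (∀ x : O, sw x ≠ x ∧ sw (sw x) = x ∧ pi (sw x) = pi x) → (∀ x y : O, pi x = pi y → y = x ∨ y = sw x) →
  Function.Surjective pi → TwoTrans L Om →
  (∀ (v : L) (x y : O), pi x ≠ pi y → v • x = x → pi (v • y) = pi y → v • y = y) →
  ∃ K : O → O → ℤ, (∀ (v : L) (x y : O), K (v • x) (v • y) = K x y) ∧
    (∀ x y : O, K (sw x) y = - K x y ∧ K x (sw y) = - K x y) ∧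
    (∀ x y : O, pi x = pi y → K x y = 0) ∧ (∀ x y : O, pi x ≠ pi y → K x y = 1 ∨ K x y = -1)

/-- ML: linear algebra. `M` an integral matrix of odd size with zero diagonal and `±1` off the diagonal,
`M² = c M + d`: then `M` has a one-dimensional eigenspace over `ℚ` (in the symmetric case), and the
skew case is impossible. -/
def ML_stmt : Prop := ∀ (Om : Type) [Fintype Om] [DecidableEq Om] (M : Matrix Om Om ℚ) (c : ℤ),
  Fintype.card Om % 2 = 1 → 3 ≤ Fintype.card Om → (∀ a : Om, M a a = 0) →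
  (∀ a b : Om, a ≠ b → M a b = 1 ∨ M a b = -1) →
  ((M.transpose = -M → M * M = (c : ℚ) • M - ((Fintype.card Om : ℚ) - 1) • (1 : Matrix Om Om ℚ) → False) ∧
  (M.transpose = M → M * M = (c : ℚ) • M + ((Fintype.card Om : ℚ) - 1) • (1 : Matrix Om Om ℚ) →
    ∃ (m : ℚ) (v : Om → ℚ), v ≠ 0 ∧ M.mulVec v = m • v ∧ ∀ w : Om → ℚ, M.mulVec w = m • w → ∃ t : ℚ, w = t • v))

/-- SM: (8.5): some element fixes `x` and swaps the fibre of `y`. (Otherwise MK and ML give a line of odd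
functions on `O` invariant under `L`; an element of 3-power order acts trivially on it; so there is a nonzero
`L`-invariant odd function on `O`, impossible as `L` is transitive on `O`.) -/
def SM_stmt : Prop := ∀ (L O Om : Type) [Group L] [Finite L] [MulAction L O] [MulAction L Om] [Finite O]
  [Finite Om] (pi : O → Om), (∀ (v : L) (x : O), pi (v • x) = v • pi x) →
  (∀ a : Om, Nat.card {x : O // pi x = a} = 2) → (∀ x y : O, ∃ v : L, v • x = y) → TwoTrans L Om →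
  ¬ 2 ∣ Nat.card Om → 3 ≤ Nat.card Om → GenThree L →
  ∃ (v : L) (x y : O), pi x ≠ pi y ∧ v • x = x ∧ pi (v • y) = pi y ∧ v • y ≠ y

/-- RP: a double cover is not ramified in exactly one point. (RH for `B` and `N`.) -/
def RP_stmt : Prop := ∀ (k G X : Type) [Field k] [CharP k 3] [Group G] [Fintype G] [MulAction G X] [Fintype X]
  (g : ℕ) (R : Ram k G X g) (B N : Subgroup G) (y : X), B ≤ N → Nat.card N = 2 * Nat.card B →
  (∃ s ∈ N, s • y = y ∧ s ∉ B) →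
  (∀ y' : X, (∃ s ∈ N, s • y' = y' ∧ s ∉ B) → ∃ a ∈ N, a • y = y') → False

/-- S8: Case II is impossible. -/
def S8_stmt : Prop := ∀ (k G X : Type) [Field k] [CharP k 3] [Group G] [Fintype G] [MulAction G X] [Fintype X]
  (l : ℕ) (R : Ram k G X (l + 1)) (x y : X) (c : G) (u h' e' u₁ : ℕ), Special l → Six R x y c u h' e' u₁ →
  CaseII G c h' e' u₁ → False

/-! ## Section 12 -/

/-- S12: the end of Case I. -/
def S12_stmt : Prop := ∀ (k G X : Type) [Field k] [CharP k 3] [Group G] [Fintype G] [MulAction G X] [Fintype X]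
  (l : ℕ) (R : Ram k G X (l + 1)) (x y : X) (u h' e' m : ℕ), Special l → Two R x y → Num R x y 2 u h' e' →
  3 ≤ m → m % 2 = 1 → e' = 3 ^ m + 1 → 2 * h' + 1 = 3 ^ m → 3 ^ m ≤ l + 2 → False

/-- IG: the outcome of sections 9, 10, 11 (helper53): in Case I the numbers are those of `PSL_2(3^m)`. -/
def IG_stmt : Prop := ∀ (k G X : Type) [Field k] [CharP k 3] [Group G] [Fintype G] [MulAction G X] [Fintype X]
  (l : ℕ) (R : Ram k G X (l + 1)) (x y : X) (c : G) (u h' e' u₁ : ℕ), Special l → Six R x y c u h' e' u₁ →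
  CaseI G c h' e' u₁ → ∃ m : ℕ, 3 ≤ m ∧ m % 2 = 1 ∧ e' = 3 ^ m + 1 ∧ 2 * h' + 1 = 3 ^ m ∧ 3 ^ m ≤ l + 2

/-- GRP: the group theoretic part. -/
def GRP_stmt : Prop := ∀ (k G X : Type) [Field k] [CharP k 3] [Group G] [Fintype G] [MulAction G X] [Fintype X]
  (l : ℕ) (_ : Ram k G X (l + 1)), Special l → Nat.card G ≤ 8 * (l + 1)

/-- FINR: assembly. -/
def FINR_stmt : Prop := S45_stmt → S6_stmt → S8_stmt → IG_stmt → S12_stmt → GRP_stmt

end

end Pool.Agent.helper75.AU
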