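import Pool.Agent.helper75.AU.SpecR

/-! # au:T4: the types -/

namespace Pool.Agent.helper75.AU

open scoped Classical
open Pool.Agent.helper53.AU MulAction

section

variable {G X : Type} [Group G] [Fintype G] [MulAction G X] [Fintype X]

/-- the sum of `d` over the complement of `U` -/
noncomputable def T4_rem (d : X → ℤ) (U : Set X) : ℤ :=
  ∑ z ∈ Finset.univ.filter (fun z : X => z ∉ U), d z

theorem T4_step (d : X → ℤ) (hd : ∀ (a : G) (z : X), d (a • z) = d z) (U : Set X)
    (hU : ∀ (a : G) (z : X), z ∈ U → a • z ∈ U) (w : X) (hw : w ∉ U) :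
    T4_rem d U = (oo G w : ℤ) * d w + T4_rem d (U ∪ orbit G w) := by
  unfold T4_rem
  have h1 : Finset.univ.filter (fun z : X => z ∉ U) =
      Finset.univ.filter (fun z : X => z ∈ orbit G w) ∪
        Finset.univ.filter (fun z : X => z ∉ U ∪ orbit G w) := by
    ext z
    simp only [Finset.mem_filter, Finset.mem_univ, true_and, Finset.mem_union, Set.mem_union, not_or]
    constructor
    · intro hz
      by_cases h : z ∈ orbit G w
      · exact Or.inl h
      · exact Or.inr ⟨hz, h⟩
    · rintro (h | h)
      · obtain ⟨a, rfl⟩ := h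
        intro hz
        apply hw
        have := hU a⁻¹ _ hz
        simpa using this
      · exact h.1
  rw [h1, Finset.sum_union]
  · refine congrArg₂ (· + ·) ?_ ?_
    · rw [Finset.sum_congr rfl (g := fun _ => d w)]
      · rw [Finset.sum_const, nsmul_eq_mul]
        congr 2
        rw [oo, Nat.card_eq_fintype_card]
        rw [← Fintype.card_coe]
        apply Fintype.card_congr
        exact Equiv.subtypeEquivRight (fun z => by simp)
      · intro z hz
        simp only [Finset.mem_filter, Finset.mem_univ, true_and] at hz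
        obtain ⟨a, rfl⟩ := hz
        exact hd a w
    · apply Finset.sum_congr
      · ext z
        simp
      · intro z _
        rfl
  · rw [Finset.disjoint_left]
    intro z hz hz'
    simp only [Finset.mem_filter, Finset.mem_univ, true_and, Set.mem_union, not_or] at hz hz'
    exact hz'.2 hz

theorem T4_pos (d : X → ℤ) (hd0 : ∀ z, 0 ≤ d z) (U : Set X)
    (h : 0 < T4_rem d U) : ∃ w, w ∉ U ∧ 0 < d w := by
  unfold T4_rem at h
  by_contra hcon
  push Not at hcon
  have : ∑ z ∈ Finset.univ.filter (fun z : X => z ∉ U), d z ≤ 0 := by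
    apply Finset.sum_nonpos
    intro z hz
    simp only [Finset.mem_filter, Finset.mem_univ, true_and] at hz
    exact hcon z hz
  omega

theorem T4_nonneg (d : X → ℤ) (hd0 : ∀ z, 0 ≤ d z) (U : Set X) :
    0 ≤ T4_rem d U :=
  Finset.sum_nonneg (fun z _ => hd0 z)

theorem T4_zero (d : X → ℤ) (hd0 : ∀ z, 0 ≤ d z) (U : Set X)
    (h : ∀ z, z ∉ U → d z = 0) : T4_rem d U = 0 := by
  unfold T4_rem
  apply Finset.sum_eq_zero
  intro z hz
  simp only [Finset.mem_filter, Finset.mem_univ, true_and] at hz
  exact h z hz

end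

theorem T4 (hBA1 : BA1_stmt) (hBA3 : BA3_stmt) (hBA4 : BA4_stmt) (hF1 : F1_stmt) : T4_stmt := by
  intro k G X _ _ _ _ _ _ l R z0 hl hz0 hbig
  obtain ⟨hoo, -⟩ := hBA4 G X
  set N : ℕ := Nat.card G with hN
  -- the function d
  set d : X → ℤ := fun z => (R.d ⊤ z : ℤ) with hd
  have hinv : ∀ (a : G) (z : X), d (a • z) = d z := by
    intro a z
    obtain ⟨-, -, -, -, -, -, -, h8, -, -⟩ := hBA3 k G X (l + 1) R z ⊤
    have := (h8 a (fun s => by simp)).1
    simp only [hd, this]
  have hd0 : ∀ z, 0 ≤ d z := fun z => by simp [hd]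
  -- contributions
  have hc : ∀ w : X, (oo G w : ℤ) * d w = N + (oo G w : ℤ) * (R.T w : ℤ) - (oo G w : ℤ) := by
    intro w
    obtain ⟨-, -, h3, h4, -⟩ := hBA3 k G X (l + 1) R w ⊤
    have h4' := h4 le_top
    rw [h4'] at h3
    have h5 := hoo w
    have h6 : (⊤ ⊓ stabilizer G w : Subgroup G) = stabilizer G w := by simp
    rw [h6] at h3
    have h3' : (d w : ℤ) = (Nat.card (stabilizer G w) : ℤ) + (R.T w : ℤ) - 1 := by
      simp only [hd]
      have : ((R.d ⊤ w + 1 : ℕ) : ℤ) = ((Nat.card (stabilizer G w) + R.T w : ℕ) : ℤ) := by rw [h3]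
      push_cast at this
      linarith
    rw [h3']
    have h5' : (oo G w : ℤ) * (Nat.card (stabilizer G w) : ℤ) = (N : ℤ) := by
      rw [hN]; exact_mod_cast h5
    linear_combination h5'
  have hoopos : ∀ w : X, 0 < oo G w := by
    intro w
    have h5 := hoo w
    have : 0 < Nat.card G := Nat.card_pos
    rcases Nat.eq_zero_or_pos (oo G w) with h | h
    · rw [h, zero_mul] at h5; omega
    · exact h
  -- free points
  have hfree : ∀ w : X, stabilizer G w = ⊥ → d w = 0 := by
    intro w hw
    obtain ⟨-, -, -, -, -, -, h7, -⟩ := hBA3 k G X (l + 1) R w ⊤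
    have := h7 (by rw [hw]; simp)
    simp [hd, this]
  have hdpos : ∀ w : X, 0 < d w → stabilizer G w ≠ ⊥ := by
    intro w hw h
    rw [hfree w h] at hw
    exact lt_irrefl _ hw
  -- tame points
  have htame : ∀ w : X, stabilizer G w ≠ ⊥ → R.P w = ⊥ →
      R.T w = 0 ∧ ((Nat.card (stabilizer G w) = 2 ∧ 2 * oo G w = N) ∨
        (4 ≤ Nat.card (stabilizer G w) ∧ 4 * oo G w ≤ N)) := by
    intro w hw hP
    obtain ⟨-, -, -, h4, -, h6, -, -, -, -⟩ := hBA3 k G X (l + 1) R w ⊤
    have hT : R.T w = 0 := by
      rw [← h4 le_top]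
      exact h6 (by rw [hP]; simp)
    refine ⟨hT, ?_⟩
    obtain ⟨-, -, -, -, -, -, hcard, h3, -, -⟩ := hBA1 k G X (l + 1) R w
    have hq : qq R w = 1 := by rw [qq, hP]; simp
    rw [hq, one_mul] at hcard
    rw [← hcard] at h3
    have h1 : Nat.card (stabilizer G w) ≠ 1 := by
      intro h
      exact hw (Subgroup.eq_bot_of_card_eq _ h)
    have h0 : 0 < Nat.card (stabilizer G w) := Nat.card_pos
    have h5 := hoo w
    have h2 : 2 ≤ Nat.card (stabilizer G w) := by omega
    rcases Nat.lt_or_ge (Nat.card (stabilizer G w)) 4 with h | h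
    · left
      have : Nat.card (stabilizer G w) = 2 := by
        have : Nat.card (stabilizer G w) ≠ 3 := by
          intro h'; rw [h'] at h3; exact h3 (dvd_refl 3)
        omega
      refine ⟨this, ?_⟩
      rw [this] at h5; linarith
    · right
      refine ⟨h, ?_⟩
      calc 4 * oo G w = oo G w * 4 := by ring
        _ ≤ oo G w * Nat.card (stabilizer G w) := Nat.mul_le_mul_left _ h
        _ = N := h5
  -- wild points
  have hwild : ∀ w : X, R.P w ≠ ⊥ → stabilizer G w ≠ ⊥ ∧ 2 ≤ R.T w := by
    intro w hw
    obtain ⟨hp, hmem, -, -, -, -, -, -, ⟨m, hm⟩, -⟩ := hBA1 k G X (l + 1) R w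
    obtain ⟨-, -, -, -, -, -, -, -, heven, hq⟩ := hBA3 k G X (l + 1) R w ⊤
    constructor
    · intro h
      apply hw
      rw [eq_bot_iff]
      intro s hs
      have := ((hmem s).1 hs).1
      have h' : s ∈ stabilizer G w := this
      rw [h] at h'
      exact h'
    · have : qq R w ≠ 1 := by
        intro h
        apply hw
        exact Subgroup.eq_bot_of_card_eq _ h
      have h3 : 3 ≤ qq R w := by
        rw [hm] at this ⊢
        rcases m with _ | m
        · simp at this
        · rw [pow_succ]
          have : 0 < 3 ^ m := by positivity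
          omega
      omega
  -- RH
  obtain ⟨γ, hγ⟩ := R.RH ⊤
  have hsum : ∑ x : X, ∑ s ∈ Finset.univ.filter (fun s : G => s ∈ (⊤ : Subgroup G) ∧ s ≠ 1 ∧ s • x = x),
      ((R.i x s : ℤ) + 1) = ∑ x : X, d x := by
    apply Finset.sum_congr rfl
    intro x _
    simp only [hd, Ram.d]
    push_cast
    rfl
  rw [hsum] at hγ
  have hNN : (Nat.card (⊤ : Subgroup G) : ℤ) = N := by
    rw [hN]; simp
  rw [hNN] at hγ
  have hl1 := hl.large
  have hNbig : (8 : ℤ) * (l + 1) < N := by exact_mod_cast hbig
  have hall : ∑ x : X, d x = T4_rem d (∅ : Set X) := by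
    unfold T4_rem
    congr 1
    ext z
    simp
  -- orbits bookkeeping
  have hU0 : ∀ (a : G) (z : X), z ∈ (∅ : Set X) → a • z ∈ (∅ : Set X) := by
    intro a z hz; exact hz
  have hUo : ∀ (U : Set X), (∀ (a : G) (z : X), z ∈ U → a • z ∈ U) → ∀ w : X,
      ∀ (a : G) (z : X), z ∈ U ∪ orbit G w → a • z ∈ U ∪ orbit G w := by
    intro U hU w a z hz
    rcases hz with hz | hz
    · exact Or.inl (hU a z hz)
    · right
      obtain ⟨b, rfl⟩ := hz
      exact ⟨a * b, by simp [mul_smul]⟩
  -- each nontrivial point contributes at least N/2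
  have hhalf : ∀ w : X, stabilizer G w ≠ ⊥ → (N : ℤ) ≤ 2 * ((oo G w : ℤ) * d w) := by
    intro w hw
    rw [hc w]
    by_cases hP : R.P w = ⊥
    · obtain ⟨hT, h | h⟩ := htame w hw hP
      · rw [hT]
        have : (2 : ℤ) * oo G w = N := by exact_mod_cast h.2
        push_cast
        linarith
      · rw [hT]
        have : (4 : ℤ) * oo G w ≤ N := by exact_mod_cast h.2
        push_cast
        have : (0 : ℤ) ≤ N := by positivity
        linarith
    · obtain ⟨-, h⟩ := hwild w hP
      have h' : (2 : ℤ) ≤ R.T w := by exact_mod_cast h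
      have ho : (0 : ℤ) ≤ oo G w := by positivity
      nlinarith
  have hrem : ∀ (U : Set X), (∀ (a : G) (z : X), z ∈ U → a • z ∈ U) → ∀ w : X, w ∉ U →
      stabilizer G w ≠ ⊥ → (N : ℤ) ≤ 2 * T4_rem d (U) := by
    intro U hU w hw hst
    rw [T4_step d hinv U hU w hw]
    have := hhalf w hst
    have h2 := T4_nonneg d hd0 (U ∪ orbit G w)
    linarith
  -- γ = 0
  have hN0 : (0 : ℤ) < N := by
    have : (0 : ℤ) ≤ l := by positivity
    linarith
  have hγ0 : γ = 0 := by
    by_contra hne
    have hg1 : (1 : ℤ) ≤ γ := by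
      have : 1 ≤ γ := Nat.one_le_iff_ne_zero.2 hne
      exact_mod_cast this
    have hS : ∑ x : X, d x ≤ 2 * l := by
      push_cast at hγ
      nlinarith
    by_cases hex : ∃ w : X, stabilizer G w ≠ ⊥
    · obtain ⟨w, hw⟩ := hex
      have := hrem ∅ hU0 w (by simp) hw
      rw [← hall] at this
      have : (0 : ℤ) ≤ l := by positivity
      linarith
    · push Not at hex
      have hS0 : ∑ x : X, d x = 0 := Finset.sum_eq_zero (fun x _ => hfree x (hex x))
      rw [hS0] at hγ
      push_cast at hγ
      have h2l : (2 : ℤ) * l = N * (2 * γ - 2) := by linarith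
      have hl0 : (1000 : ℤ) < l := by exact_mod_cast hl1
      rcases eq_or_lt_of_le hg1 with h | h
      · rw [← h] at h2l
        norm_num at h2l
        linarith
      · have h2 : (2 : ℤ) ≤ γ := by linarith
        nlinarith
  rw [hγ0] at hγ
  have hS : ∑ x : X, d x = 2 * N + 2 * l := by
    push_cast at hγ
    linarith
  rw [hall] at hS
  have hl0 : (1000 : ℤ) < l := by exact_mod_cast hl1
  by_cases hW : ∃ w : X, R.P w ≠ ⊥
  · -- wild case
    obtain ⟨w, hw⟩ := hW
    -- a Sylow point
    obtain ⟨S3⟩ : Nonempty (Sylow 3 G) := inferInstance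
    have h3 : Fact (Nat.Prime 3) := ⟨Nat.prime_three⟩
    have hPw3 : IsPGroup 3 (R.P w) := (hBA1 k G X (l + 1) R w).1
    have hS3ne : (S3 : Subgroup G) ≠ ⊥ := by
      intro h
      obtain ⟨Q, hQ⟩ := hPw3.exists_le_sylow
      apply hw
      rw [eq_bot_iff]
      refine le_trans hQ ?_
      have hc1 : Nat.card Q = 1 := by
        have h1 : Nat.card (S3 : Subgroup G) = 1 := by rw [h]; simp
        have h2 : Nat.card (Q : Subgroup G) = Nat.card (S3 : Subgroup G) := by
          rw [Q.card_eq_multiplicity, S3.card_eq_multiplicity]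
        exact h2.trans h1
      rw [Subgroup.eq_bot_of_card_eq _ hc1]
    obtain ⟨-, x, x', -, hx, -⟩ := hF1 k G X l R S3 hl.mod3 S3.isPGroup' hS3ne
    have hPx : (S3 : Subgroup G) = R.P x := by
      refine (S3.is_maximal' (hBA1 k G X (l + 1) R x).1 ?_).symm
      intro s hs
      obtain ⟨n, hn⟩ := S3.isPGroup' ⟨s, hs⟩
      apply (hBA1 k G X (l + 1) R x).2.2.1 s (hx s hs)
      exact ⟨n, by simpa using congrArg Subtype.val hn⟩
    have hPxne : R.P x ≠ ⊥ := by rw [← hPx]; exact hS3ne
    obtain ⟨hxst, hxT⟩ := hwild x hPxne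
    have hstep1 := T4_step d hinv ∅ hU0 x (by simp)
    rw [hS, hc x] at hstep1
    have hU1 := hUo ∅ hU0 x
    have hox : (0 : ℤ) < oo G x := by exact_mod_cast hoopos x
    have hTx : (2 : ℤ) ≤ R.T x := by exact_mod_cast hxT
    by_cases hW2 : ∃ y : X, y ∉ (∅ : Set X) ∪ orbit G x ∧ R.P y ≠ ⊥
    · -- type (C)
      left
      obtain ⟨y, hyU, hyP⟩ := hW2
      obtain ⟨hyst, hyT⟩ := hwild y hyP
      have hstep2 := T4_step d hinv _ hU1 y hyU
      rw [hc y] at hstep2
      have hU2 := hUo _ hU1 y
      have hoy : (0 : ℤ) < oo G y := by exact_mod_cast hoopos y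
      have hTy : (2 : ℤ) ≤ R.T y := by exact_mod_cast hyT
      have hcov : ∀ z : X, stabilizer G z ≠ ⊥ → z ∈ (∅ : Set X) ∪ orbit G x ∪ orbit G y := by
        intro z hz
        by_contra hcon
        have := hrem _ hU2 z hcon hz
        nlinarith
      refine ⟨x, y, ⟨hPxne, ⟨S3, hPx⟩, ?_, ?_, ?_⟩⟩
      · intro a ha
        apply hyU
        right
        exact ⟨a, ha⟩
      · intro z hz
        rcases hcov z hz with (h | h) | h
        · exact absurd h (by simp)
        · exact Or.inl h
        · exact Or.inr h
      · have hz0' : T4_rem d ((∅ : Set X) ∪ orbit G x ∪ orbit G y) = 0 := by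
          apply T4_zero d hd0
          intro z hz
          by_contra hne
          exact hz (hcov z (fun h => hne (hfree z h)))
        rw [hz0'] at hstep2
        rw [hstep2] at hstep1
        have : (2 : ℤ) * (l + 1) + oo G x + oo G y = 2 + oo G x * R.T x + oo G y * R.T y := by linarith
        exact_mod_cast this
    · push Not at hW2
      by_cases hE : ∃ y : X, y ∉ (∅ : Set X) ∪ orbit G x ∧ stabilizer G y ≠ ⊥
      · obtain ⟨y, hyU, hyst⟩ := hE
        have hyP := hW2 y hyU
        obtain ⟨hyT, hye⟩ := htame y hyst hyP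
        have hstep2 := T4_step d hinv _ hU1 y hyU
        rw [hc y, hyT] at hstep2
        have hU2 := hUo _ hU1 y
        by_cases hE2 : ∃ y' : X, y' ∉ (∅ : Set X) ∪ orbit G x ∪ orbit G y ∧ stabilizer G y' ≠ ⊥
        · -- type (D)
          right; left
          obtain ⟨y', hyU', hyst'⟩ := hE2
          have hyP' := hW2 y' (fun h => hyU' (Or.inl h))
          obtain ⟨hyT', hye'⟩ := htame y' hyst' hyP'
          have hstep3 := T4_step d hinv _ hU2 y' hyU'
          rw [hc y', hyT'] at hstep3
          have hU3 := hUo _ hU2 y'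
          have hn3 := T4_nonneg d hd0 ((∅ : Set X) ∪ orbit G x ∪ orbit G y ∪ orbit G y')
          have hsum2 : (3 : ℤ) * N < 4 * (oo G y + oo G y') := by
            rw [hstep3] at hstep2
            rw [hstep2] at hstep1
            push_cast at hstep1
            nlinarith
          have h2oy : 2 * (oo G y : ℤ) ≤ N := by
            rcases hye with h | h
            · have : (2 : ℤ) * oo G y = N := by exact_mod_cast h.2
              linarith
            · have : (4 : ℤ) * oo G y ≤ N := by exact_mod_cast h.2
              linarith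
          have h2oy' : 2 * (oo G y' : ℤ) ≤ N := by
            rcases hye' with h | h
            · have : (2 : ℤ) * oo G y' = N := by exact_mod_cast h.2
              linarith
            · have : (4 : ℤ) * oo G y' ≤ N := by exact_mod_cast h.2
              linarith
          have hcy : Nat.card (stabilizer G y) = 2 ∧ 2 * oo G y = N := by
            rcases hye with h | h
            · exact h
            · exfalso
              have : (4 : ℤ) * oo G y ≤ N := by exact_mod_cast h.2
              linarith
          have hcy' : Nat.card (stabilizer G y') = 2 ∧ 2 * oo G y' = N := by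
            rcases hye' with h | h
            · exact h
            · exfalso
              have : (4 : ℤ) * oo G y' ≤ N := by exact_mod_cast h.2
              linarith
          have e1 : (2 : ℤ) * oo G y = N := by exact_mod_cast hcy.2
          have e2 : (2 : ℤ) * oo G y' = N := by exact_mod_cast hcy'.2
          have hcov : ∀ z : X, stabilizer G z ≠ ⊥ →
              z ∈ (∅ : Set X) ∪ orbit G x ∪ orbit G y ∪ orbit G y' := by
            intro z hz
            by_contra hcon
            have := hrem _ hU3 z hcon hz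
            rw [hstep3] at hstep2
            rw [hstep2] at hstep1
            push_cast at hstep1
            nlinarith
          refine ⟨x, y, y', ⟨hPxne, ⟨S3, hPx⟩, ?_, ?_, ?_, ?_, hcy.1, hcy'.1, ?_⟩⟩
          · intro a ha
            exact hyU (Or.inr ⟨a, ha⟩)
          · intro a ha
            exact hyU' (Or.inl (Or.inr ⟨a, ha⟩))
          · intro a ha
            exact hyU' (Or.inr ⟨a, ha⟩)
          · intro z hz
            rcases hcov z hz with ((h | h) | h) | h
            · exact absurd h (by simp)
            · exact Or.inl h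
            · exact Or.inr (Or.inl h)
            · exact Or.inr (Or.inr h)
          · have hz0' : T4_rem d ((∅ : Set X) ∪ orbit G x ∪ orbit G y ∪ orbit G y') = 0 := by
              apply T4_zero d hd0
              intro z hz
              by_contra hne
              exact hz (hcov z (fun h => hne (hfree z h)))
            rw [hz0'] at hstep3
            rw [hstep3] at hstep2
            rw [hstep2] at hstep1
            push_cast at hstep1
            have : (2 : ℤ) * (l + 1) + oo G x = 2 + oo G x * R.T x := by linarith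
            exact_mod_cast this
        · -- type (B)
          left
          push Not at hE2
          refine ⟨x, y, ⟨hPxne, ⟨S3, hPx⟩, ?_, ?_, ?_⟩⟩
          · intro a ha
            exact hyU (Or.inr ⟨a, ha⟩)
          · intro z hz
            by_contra hcon
            push Not at hcon
            apply hz
            apply hE2
            rintro ((h | h) | h)
            · exact absurd h (by simp)
            · exact hcon.1 h
            · exact hcon.2 h
          · have hz0' : T4_rem d ((∅ : Set X) ∪ orbit G x ∪ orbit G y) = 0 := by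
              apply T4_zero d hd0
              intro z hz
              exact hfree z (hE2 z hz)
            rw [hz0'] at hstep2
            rw [hstep2] at hstep1
            push_cast at hstep1
            have : (2 : ℤ) * (l + 1) + oo G x + oo G y = 2 + oo G x * R.T x + oo G y * R.T y := by
              rw [hyT]; push_cast; linarith
            exact_mod_cast this
      · -- type (A)
        left
        push Not at hE
        have hTz0 : R.T z0 = 0 := by
          obtain ⟨-, -, -, h4, -, h6, -⟩ := hBA3 k G X (l + 1) R z0 ⊤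
          rw [← h4 le_top]
          apply h6
          rw [eq_bot_iff]
          intro s hs
          have := ((hBA1 k G X (l + 1) R z0).2.1 s).1 hs.2
          have h' : s ∈ stabilizer G z0 := this.1
          rw [hz0] at h'
          exact h'
        have hooz0 : (oo G z0 : ℤ) = N := by
          have := hoo z0
          rw [hz0] at this
          simp at this
          rw [hN, this]
        refine ⟨x, z0, ⟨hPxne, ⟨S3, hPx⟩, ?_, ?_, ?_⟩⟩
        · intro a ha
          apply hxst
          rw [← ha] at hz0
          rw [eq_bot_iff]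
          intro s hs
          have : a * s * a⁻¹ ∈ stabilizer G (a • x) := by
            rw [mem_stabilizer_iff] at hs ⊢
            simp [mul_smul, hs]
          rw [hz0] at this
          have h1 : a * s * a⁻¹ = 1 := this
          have h2 : s = a⁻¹ * (a * s * a⁻¹) * a := by group
          rw [h2, h1]; simp
        · intro z hz
          left
          by_contra hcon
          apply hz
          apply hE
          rintro (h | h)
          · exact absurd h (by simp)
          · exact hcon h
        · have hz0' : T4_rem d ((∅ : Set X) ∪ orbit G x) = 0 := by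
            apply T4_zero d hd0
            intro z hz
            exact hfree z (hE z hz)
          rw [hz0'] at hstep1
          have : (2 : ℤ) * (l + 1) + oo G x + oo G z0 = 2 + oo G x * R.T x + oo G z0 * R.T z0 := by
            rw [hTz0, hooz0]; push_cast; linarith
          exact_mod_cast this
  · -- tame case
    right; right
    push Not at hW
    have hnd : ¬ 3 ∣ Nat.card G := by
      intro h3
      have hf : Fact (Nat.Prime 3) := ⟨Nat.prime_three⟩
      obtain ⟨S3⟩ : Nonempty (Sylow 3 G) := inferInstance
      have hne : (S3 : Subgroup G) ≠ ⊥ := S3.ne_bot_of_dvd_card h3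
      obtain ⟨-, x, x', -, hx, -⟩ := hF1 k G X l R S3 hl.mod3 S3.isPGroup' hne
      apply hne
      rw [eq_bot_iff, ← hW x]
      intro s hs
      obtain ⟨n, hn⟩ := S3.isPGroup' ⟨s, hs⟩
      apply (hBA1 k G X (l + 1) R x).2.2.1 s (hx s hs)
      exact ⟨n, by simpa using congrArg Subtype.val hn⟩
    have hle : ∀ w : X, stabilizer G w ≠ ⊥ → 2 * (oo G w : ℤ) ≤ N := by
      intro w hw
      obtain ⟨-, h | h⟩ := htame w hw (hW w)
      · have : (2 : ℤ) * oo G w = N := by exact_mod_cast h.2
        linarith
      · have : (4 : ℤ) * oo G w ≤ N := by exact_mod_cast h.2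
        linarith
    have hT0 : ∀ w : X, stabilizer G w ≠ ⊥ → R.T w = 0 := fun w hw => (htame w hw (hW w)).1
    have h2 : ∀ w : X, stabilizer G w ≠ ⊥ → 2 ≤ Nat.card (stabilizer G w) := by
      intro w hw
      obtain ⟨-, h | h⟩ := htame w hw (hW w)
      · omega
      · omega
    -- y1
    obtain ⟨y1, hy1, hd1⟩ := T4_pos d hd0 ∅ (by rw [hS]; linarith)
    have hst1 := hdpos y1 hd1
    have hstep1 := T4_step d hinv ∅ hU0 y1 hy1
    rw [hS, hc y1, hT0 y1 hst1] at hstep1
    have hU1 := hUo ∅ hU0 y1
    have ho1 : (0 : ℤ) < oo G y1 := by exact_mod_cast hoopos y1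
    have hl1' := hle y1 hst1
    -- y2
    obtain ⟨y2, hy2, hd2⟩ := T4_pos d hd0 (∅ ∪ orbit G y1) (by push_cast at hstep1; linarith)
    have hst2 := hdpos y2 hd2
    have hstep2 := T4_step d hinv _ hU1 y2 hy2
    rw [hc y2, hT0 y2 hst2] at hstep2
    have hU2 := hUo _ hU1 y2
    have ho2 : (0 : ℤ) < oo G y2 := by exact_mod_cast hoopos y2
    have hl2' := hle y2 hst2
    -- y3
    obtain ⟨y3, hy3, hd3⟩ := T4_pos d hd0 (∅ ∪ orbit G y1 ∪ orbit G y2) (by push_cast at hstep1 hstep2; linarith)
    have hst3 := hdpos y3 hd3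
    have hstep3 := T4_step d hinv _ hU2 y3 hy3
    rw [hc y3, hT0 y3 hst3] at hstep3
    have hU3 := hUo _ hU2 y3
    have ho3 : (0 : ℤ) < oo G y3 := by exact_mod_cast hoopos y3
    have hl3' := hle y3 hst3
    push_cast at hstep1 hstep2 hstep3
    have hcov : ∀ z : X, stabilizer G z ≠ ⊥ → z ∈ (∅ : Set X) ∪ orbit G y1 ∪ orbit G y2 ∪ orbit G y3 := by
      intro y4 hst4
      by_contra hy4
      have hstep4 := T4_step d hinv _ hU3 y4 hy4
      rw [hc y4, hT0 y4 hst4] at hstep4
      have hU4 := hUo _ hU3 y4
      have hl4' := hle y4 hst4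
      have hn4 := T4_nonneg d hd0 ((∅ : Set X) ∪ orbit G y1 ∪ orbit G y2 ∪ orbit G y3 ∪ orbit G y4)
      push_cast at hstep4
      -- all are of order 2
      have hh : ∀ w : X, stabilizer G w ≠ ⊥ → N < 4 * (oo G w : ℤ) → (2 : ℤ) * oo G w = N := by
        intro w hw hlt
        obtain ⟨-, h | h⟩ := htame w hw (hW w)
        · exact_mod_cast h.2
        · exfalso
          have : (4 : ℤ) * oo G w ≤ N := by exact_mod_cast h.2
          linarith
      have g1 := hh y1 hst1 (by linarith)
      have g2 := hh y2 hst2 (by linarith)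
      have g3 := hh y3 hst3 (by linarith)
      have g4 := hh y4 hst4 (by linarith)
      obtain ⟨y5, hy5, hd5⟩ := T4_pos d hd0 ((∅ : Set X) ∪ orbit G y1 ∪ orbit G y2 ∪ orbit G y3 ∪ orbit G y4)
        (by linarith)
      have := hrem _ hU4 y5 hy5 (hdpos y5 hd5)
      linarith
    refine ⟨y1, y2, y3, ⟨hnd, ?_, ?_, ?_, ?_, h2 y1 hst1, h2 y2 hst2, h2 y3 hst3, ?_⟩⟩
    · intro a ha
      exact hy2 (Or.inr ⟨a, ha⟩)
    · intro a ha
      exact hy3 (Or.inl (Or.inr ⟨a, ha⟩))
    · intro a ha
      exact hy3 (Or.inr ⟨a, ha⟩)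
    · intro z hz
      rcases hcov z hz with ((h | h) | h) | h
      · exact absurd h (by simp)
      · exact Or.inl h
      · exact Or.inr (Or.inl h)
      · exact Or.inr (Or.inr h)
    · have hz0' : T4_rem d ((∅ : Set X) ∪ orbit G y1 ∪ orbit G y2 ∪ orbit G y3) = 0 := by
        apply T4_zero d hd0
        intro z hz
        by_contra hne
        exact hz (hcov z (fun h => hne (hfree z h)))
      rw [hz0'] at hstep3
      have : (2 : ℤ) * (l + 1) + oo G y1 + oo G y2 + oo G y3 = 2 + N := by linarith
      rw [hN] at this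
      exact_mod_cast this

end Pool.Agent.helper75.AU
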