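import Pool.Agent.helper75.AU.SpecR

/-! # au:W3: if `l ∣ N` the Sylow `l`-subgroup is normal -/

namespace Pool.Agent.helper75.AU

open scoped Classical
open Pool.Agent.helper53.AU MulAction

/-- the arithmetic of (4.3), `q = 3` -/
theorem W3_q3 (d' m e' h' u T n : ℕ) (hd : d' = 1 ∨ d' = 2) (hT : 2 ∣ T)
    (hh : 0 < h') (he : 0 < e') (hu : 0 < u)
    (h1 : d' * e' + 2 = d' * m * h') (h2 : u * e' ∣ 3 + m)
    (h3 : 2 + d' * e' + d' * 3 * h' = d' * e' * T) (hn : n ∣ d' * 3 * u * e' * h') : n ≤ 84 := by
  have hue : u * e' ≤ 3 + m := Nat.le_of_dvd (by omega) h2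
  have hd0 : 0 < d' := by omega
  have hpos : 0 < d' * 3 * u * e' * h' := by positivity
  have hle : n ≤ d' * 3 * u * e' * h' := Nat.le_of_dvd hpos hn
  -- A = d' h'
  obtain ⟨A, hA⟩ : ∃ A, A = d' * h' := ⟨_, rfl⟩
  obtain ⟨B, hB⟩ : ∃ B, B = d' * e' := ⟨_, rfl⟩
  have hA0 : 0 < A := by rw [hA]; positivity
  have hB0 : 0 < B := by rw [hB]; positivity
  have hle2 : d' * 3 * u * e' * h' ≤ 3 * A * (3 + m) := by
    calc d' * 3 * u * e' * h' = 3 * (d' * h') * (u * e') := by ring
      _ ≤ 3 * (d' * h') * (3 + m) := Nat.mul_le_mul_left _ hue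
      _ = 3 * A * (3 + m) := by rw [hA]
  have e1 : B + 2 = m * A := by rw [hB, hA, h1]; ring
  have e3 : 2 + B + 3 * A = B * T := by
    rw [hB, hA]
    calc 2 + d' * e' + 3 * (d' * h') = 2 + d' * e' + d' * 3 * h' := by ring
      _ = d' * e' * T := h3
  -- T even, T ≥ 2
  obtain ⟨t, rfl⟩ := hT
  have hm0 : 0 < m := by
    rcases Nat.eq_zero_or_pos m with h | h
    · rw [h] at e1; simp at e1
    · exact h
  have ht0 : 0 < t := by
    rcases Nat.eq_zero_or_pos t with h | h
    · rw [h] at e3; simp at e3
    · exact h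
  -- B (2t - 1) = 2 + 3 A, B = mA - 2
  have key : B * (2 * t - 1) = 2 + 3 * A := by
    have : B * (2 * t) = B * (2 * t - 1) + B := by
      have : 2 * t = (2 * t - 1) + 1 := by omega
      conv_lhs => rw [this]
      ring
    omega
  rcases Nat.lt_or_ge t 2 with ht | ht
  · have : t = 1 := by omega
    subst this
    norm_num at key
    -- B = 2 + 3A, mA = 4 + 3A
    have hmA : m * A = 4 + 3 * A := by omega
    have hm3 : 3 < m := by
      by_contra hcon
      have : m * A ≤ 3 * A := Nat.mul_le_mul_right A (by omega)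
      omega
    obtain ⟨j, rfl⟩ : ∃ j, m = 3 + j := ⟨m - 3, by omega⟩
    have hj : j * A = 4 := by nlinarith
    have hj0 : 0 < j := by omega
    have hAle : A ≤ 4 := by nlinarith
    have : 3 * A * (3 + (3 + j)) ≤ 84 := by nlinarith
    omega
  · have hge : 3 * B ≤ 2 + 3 * A := by
      rw [← key]
      have : 3 ≤ 2 * t - 1 := by omega
      nlinarith
    have hm : 3 * (m * A) ≤ 8 + 3 * A := by omega
    rcases Nat.lt_or_ge m 2 with h | h
    · have : m = 1 := by omega
      subst this
      -- B = A - 2; 3B ≤ 2 + 3A fine; need more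
      have hBA : B + 2 = A := by omega
      have ht3 : 3 ≤ t := by
        by_contra hcon
        have : t = 2 := by omega
        subst this
        norm_num at key
        omega
      have : 5 * B ≤ 2 + 3 * A := by
        rw [← key]
        have : 5 ≤ 2 * t - 1 := by omega
        nlinarith
      have hA6 : A ≤ 6 := by omega
      have : 3 * A * (3 + 1) ≤ 84 := by omega
      omega
    · -- m ≥ 2
      have : 3 * (m - 1) * A ≤ 8 := by
        obtain ⟨j, rfl⟩ : ∃ j, m = 1 + j := ⟨m - 1, by omega⟩
        simp only [Nat.add_sub_cancel_left]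
        nlinarith
      have hm' : m ≤ 3 := by
        by_contra hcon
        have : 3 * 3 * 1 ≤ 3 * (m - 1) * A := by
          apply Nat.mul_le_mul
          · omega
          · omega
        omega
      have hA2 : A ≤ 2 := by
        by_contra hcon
        have : 3 * 1 * 3 ≤ 3 * (m - 1) * A := by
          apply Nat.mul_le_mul
          · omega
          · omega
        omega
      have : 3 * A * (3 + m) ≤ 3 * 2 * 6 := by
        apply Nat.mul_le_mul
        · omega
        · omega
      omega

/-- the arithmetic of (4.3), `q ≥ 9` -/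
theorem W3_q9 (q d' m e' h' T : ℕ) (hq : 9 ≤ q) (hqT : q ≤ T + 1) (hd : d' = 1 ∨ d' = 2)
    (hh : 0 < h') (h1 : d' * e' + 2 = d' * m * h')
    (h3 : 2 + d' * e' + d' * q * h' = d' * e' * T) : m ≤ 3 ∧ (2 ≤ m → h' ≤ 3) := by
  obtain ⟨A, hA⟩ : ∃ A, A = d' * h' := ⟨_, rfl⟩
  obtain ⟨B, hB⟩ : ∃ B, B = d' * e' := ⟨_, rfl⟩
  have hd0 : 0 < d' := by omega
  have hA0 : h' ≤ A := by rw [hA]; nlinarith
  have e1 : B + 2 = m * A := by rw [hB, hA, h1]; ring
  have e3 : 2 + B + q * A = B * T := by
    rw [hB, hA]
    calc 2 + d' * e' + q * (d' * h') = 2 + d' * e' + d' * q * h' := by ring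
      _ = d' * e' * T := h3
  have hT : B * (q - 1) ≤ B * T := Nat.mul_le_mul_left _ (by omega)
  obtain ⟨p, rfl⟩ : ∃ p, q = p + 2 := ⟨q - 2, by omega⟩
  have hT' : B * (p + 1) ≤ 2 + B + (p + 2) * A := by
    have : p + 2 - 1 = p + 1 := by omega
    rw [this] at hT
    omega
  have hBp : B * p ≤ 2 + (p + 2) * A := by nlinarith
  -- (mA - 2) p ≤ 2 + (p+2) A
  have key : m * A * p ≤ 2 + 2 * p + (p + 2) * A := by
    rw [← e1]; nlinarith
  constructor
  · by_contra hcon
    have hm : 4 ≤ m := by omega
    have h4 : 4 * A * p ≤ m * A * p := by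
      apply Nat.mul_le_mul_right
      exact Nat.mul_le_mul_right A hm
    have hA1 : 1 ≤ A := by omega
    nlinarith
  · intro hm
    by_contra hcon
    have hA4 : 4 ≤ A := by omega
    have h4 : 2 * A * p ≤ m * A * p := by
      apply Nat.mul_le_mul_right
      exact Nat.mul_le_mul_right A hm
    nlinarith

theorem W3 (hBA1 : BA1_stmt) (hBA3 : BA3_stmt) (hBA4 : BA4_stmt) (hC3 : C3_stmt) (hF2 : F2_stmt)
    (hF3c : F3c_stmt) (hNUM : NUM_stmt) : W3_stmt := by
  intro k G X _ _ _ _ _ _ l R hl hlN hbig htype
  have hlp : Fact (Nat.Prime l) := ⟨hl.prime⟩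
  have hl1 := hl.large
  obtain ⟨hoo, -⟩ := hBA4 G X
  obtain ⟨-, hfree, hl2⟩ := hF3c k G X l R hl.prime (by omega)
  -- Sylow l-subgroup
  obtain ⟨Q⟩ : Nonempty (Sylow l G) := inferInstance
  have hNpos : 0 < Nat.card G := Nat.card_pos
  have hQcard : Nat.card Q = l := by
    rw [Q.card_eq_multiplicity]
    have h1 : 1 ≤ (Nat.card G).factorization l := by
      rw [← hl.prime.pow_dvd_iff_le_factorization hNpos.ne', pow_one]
      exact hlN
    have h2 : ¬ 2 ≤ (Nat.card G).factorization l := by
      rw [← hl.prime.pow_dvd_iff_le_factorization hNpos.ne']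
      exact hl2
    have h3 : (Nat.card G).factorization l = 1 := by omega
    rw [h3, pow_one]
  have hindex : (Q : Subgroup G).index * l = Nat.card G := by
    have := (Q : Subgroup G).index_mul_card
    rw [← this]
    congr 1
    exact hQcard.symm
  have hmod : Nat.card (Sylow l G) ≡ 1 [MOD l] := card_sylow_modEq_one l G
  have hdvd : Nat.card (Sylow l G) ∣ (Q : Subgroup G).index := Sylow.card_dvd_index Q
  -- it suffices that n_l = 1
  have hfin : Nat.card (Sylow l G) = 1 → ∃ Lam : Subgroup G, Lam.Normal ∧ Nat.card Lam = l := by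
    intro h
    have hsub : Subsingleton (Sylow l G) := (Nat.card_eq_one_iff_unique.1 h).1
    exact ⟨Q, Q.normal_of_subsingleton, hQcard⟩
  have hsmall : Nat.card (Sylow l G) < l → Nat.card (Sylow l G) = 1 := by
    intro h
    have h1 : Nat.card (Sylow l G) % l = 1 % l := hmod
    rw [Nat.mod_eq_of_lt h, Nat.mod_eq_of_lt (by omega)] at h1
    exact h1
  have hooln : ∀ w : X, l ∣ oo G w := by
    intro w
    have h1 := hoo w
    rw [← h1] at hlN
    rcases (Nat.Prime.dvd_mul hl.prime).1 hlN with h | h
    · exact h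
    · exact absurd h (hfree w)
  have hoopos : ∀ w : X, 0 < oo G w := by
    intro w
    have h5 := hoo w
    rcases Nat.eq_zero_or_pos (oo G w) with h | h
    · rw [h, zero_mul] at h5; omega
    · exact h
  have hwild : ∀ w : X, R.P w ≠ ⊥ → 2 ≤ R.T w := by
    intro w hw
    obtain ⟨hp, hmem, -, -, -, -, -, -, ⟨m, hm⟩, -⟩ := hBA1 k G X (l + 1) R w
    obtain ⟨-, -, -, -, -, -, -, -, heven, hq⟩ := hBA3 k G X (l + 1) R w ⊤
    have : qq R w ≠ 1 := by
      intro h
      apply hw
      exact Subgroup.eq_bot_of_card_eq _ h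
    have h3 : 3 ≤ qq R w := by
      rw [hm] at this ⊢
      rcases m with _ | m
      · simp at this
      · rw [pow_succ]
        have : 0 < 3 ^ m := by positivity
        omega
    omega
  have hhT : ∀ w : X, hh R w ∣ R.T w := by
    intro w
    obtain ⟨-, -, -, -, -, -, -, -, -, c, hc⟩ := hBA1 k G X (l + 1) R w
    exact (hC3 k G X (l + 1) R w c hc).2.1
  rcases htype with ⟨x, y, htwo⟩ | ⟨x, y, y', hD⟩
  · -- types A, B, C
    obtain ⟨-, -, -, -, -, -, hcardx, hh3, ⟨a, ha⟩, -⟩ := hBA1 k G X (l + 1) R x
    obtain ⟨-, -, -, -, -, -, -, -, hTeven, hqT⟩ := hBA3 k G X (l + 1) R x ⊤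
    by_cases hPy : R.P y = ⊥
    · have hTy : R.T y = 0 := by
        obtain ⟨-, -, -, h4, -, h6, -⟩ := hBA3 k G X (l + 1) R y ⊤
        rw [← h4 le_top]
        exact h6 (by rw [hPy]; simp)
      have hqy : qq R y = 1 := by rw [qq, hPy]; simp
      obtain ⟨D, u, h', e', hN⟩ := hNUM k G X l R x y hl htwo
      obtain ⟨hD0, hu0, hh0, he0⟩ := hN.pos
      have hox := hN.ox
      have hoy := hN.oy
      rw [hqy, one_mul] at hoy
      -- l ∣ D
      have hlD : l ∣ D := by
        by_contra hcon
        have h1 : l ∣ e' := by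
          have := hooln x
          rw [hox] at this
          exact ((Nat.Prime.dvd_mul hl.prime).1 this).resolve_left hcon
        have h2 : l ∣ h' := by
          have := hooln y
          rw [hoy] at this
          rcases (Nat.Prime.dvd_mul hl.prime).1 this with h | h
          · exfalso
            rcases (Nat.Prime.dvd_mul hl.prime).1 h with h | h
            · exact hcon h
            · rw [ha] at h
              have := hl.prime.dvd_of_dvd_pow h
              have := Nat.le_of_dvd (by norm_num) this
              omega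
          · exact h
        have := Nat.dvd_gcd h2 h1
        rw [hN.cop] at this
        have := Nat.le_of_dvd one_pos this
        omega
      obtain ⟨d', rfl⟩ := hlD
      have hd' : d' = 1 ∨ d' = 2 := by
        have h1 : l * d' ∣ l * 2 := by
          have := hN.dvd
          rwa [mul_comm 2 l] at this
        have h2 : d' ∣ 2 := Nat.dvd_of_mul_dvd_mul_left (by omega) h1
        exact (Nat.dvd_prime Nat.prime_two).1 h2
      have hd0 : 0 < d' := by omega
      have hrh := htwo.rh
      rw [hTy, mul_zero, add_zero, hox, hoy] at hrh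
      -- 2 + d'e' + d' q h' = d' e' T
      have h3 : 2 + d' * e' + d' * qq R x * h' = d' * e' * R.T x := by
        have : l * (2 + d' * e' + d' * qq R x * h') = l * (d' * e' * R.T x) := by nlinarith
        exact Nat.eq_of_mul_eq_mul_left (by omega) this
      -- T = u h' t
      obtain ⟨t, ht⟩ := hN.hT
      rw [hN.hx] at ht
      have ht' : R.T x = u * h' * t := ht
      -- m
      have hmex : ∃ m : ℕ, e' * u * t = qq R x + m ∧ d' * e' + 2 = d' * m * h' := by
        have h4 : 2 + d' * e' + d' * qq R x * h' = d' * h' * (e' * u * t) := by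
          rw [h3, ht']; ring
        have h5 : qq R x ≤ e' * u * t := by
          by_contra hcon
          have : e' * u * t ≤ qq R x := by omega
          have : d' * h' * (e' * u * t) ≤ d' * h' * qq R x := Nat.mul_le_mul_left _ this
          have h6 : d' * h' * qq R x = d' * qq R x * h' := by ring
          omega
        refine ⟨e' * u * t - qq R x, by omega, ?_⟩
        obtain ⟨m, hm⟩ : ∃ m, e' * u * t = qq R x + m := ⟨_, (Nat.add_sub_cancel' h5).symm⟩
        rw [hm] at h4 ⊢
        simp only [Nat.add_sub_cancel_left]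
        nlinarith
      obtain ⟨m, hm1, hm2⟩ := hmex
      have hudvd : u * e' ∣ qq R x + m := ⟨t, by rw [← hm1]; ring⟩
      have hn : Nat.card (Sylow l G) ∣ d' * qq R x * u * e' * h' := by
        have h1 : (Q : Subgroup G).index * l = l * (d' * qq R x * u * e' * h') := by
          rw [hindex, hN.N]; ring
        have h2 : (Q : Subgroup G).index = d' * qq R x * u * e' * h' := by
          apply Nat.eq_of_mul_eq_mul_right (show 0 < l by omega)
          rw [h1]; ring
        rw [← h2]; exact hdvd
      have hPx : qq R x ≠ 1 := by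
        intro h
        exact htwo.wild (Subgroup.eq_bot_of_card_eq _ h)
      have ha0 : a ≠ 0 := by
        rintro rfl
        exact hPx (by rw [ha]; simp)
      apply hfin
      by_cases ha1 : a = 1
      · -- q = 3
        rw [ha1, pow_one] at ha
        rw [ha] at hudvd hn h3
        have := W3_q3 d' m e' h' u (R.T x) (Nat.card (Sylow l G)) hd' hTeven hh0 he0 hu0 hm2 hudvd h3 hn
        exact hsmall (by omega)
      · have ha2 : 2 ≤ a := by omega
        have hq9 : 9 ≤ qq R x := by
          rw [ha]
          calc 9 = 3 ^ 2 := by norm_num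
            _ ≤ 3 ^ a := Nat.pow_le_pow_right (by norm_num) ha2
        obtain ⟨hm3, hmh⟩ := W3_q9 (qq R x) d' m e' h' (R.T x) hq9 hqT hd' hh0 hm2 h3
        have hm0 : 1 ≤ m := by
          rcases Nat.eq_zero_or_pos m with h | h
          · rw [h] at hm2; simp at hm2
          · exact h
        have hqle : 3 ^ a ≤ l + 2 := by
          rw [← ha]
          obtain ⟨hp, -⟩ := hBA1 k G X (l + 1) R x
          exact (hF2 k G X l R (R.P x) hp).2 hl.mod3
        have h1 : Nat.card (Sylow l G) % l = 1 := by
          have : Nat.card (Sylow l G) % l = 1 % l := hmod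
          rwa [Nat.mod_eq_of_lt (show 1 < l by omega)] at this
        rw [ha] at hudvd hn
        exact hl.condN a d' m e' h' u (Nat.card (Sylow l G)) ha2 hqle hd' hm0 hm3 he0 hh0 hu0 hm2
          hudvd hmh hn h1
    · -- type C: contradiction
      exfalso
      have hTx := hwild x htwo.wild
      have hTy := hwild y hPy
      obtain ⟨m, hm⟩ := hooln x
      obtain ⟨m', hm'⟩ := hooln y
      have hox := hoopos x
      have hoy := hoopos y
      have hrh := htwo.rh
      have hm0 : 0 < m := by
        rcases Nat.eq_zero_or_pos m with h | h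
        · rw [h] at hm; omega
        · exact h
      have hm0' : 0 < m' := by
        rcases Nat.eq_zero_or_pos m' with h | h
        · rw [h] at hm'; omega
        · exact h
      rw [hm, hm'] at hrh
      have h1 : 2 + m + m' = m * R.T x + m' * R.T y := by
        have : l * (2 + m + m') = l * (m * R.T x + m' * R.T y) := by nlinarith
        exact Nat.eq_of_mul_eq_mul_left (by omega) this
      have hm1 : m = 1 := by nlinarith
      have hTx2 : R.T x = 2 := by nlinarith
      have hcard := hoo x
      rw [hm, hm1, hcardx] at hcard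
      have hq3 : qq R x ≤ 3 := by omega
      have hh2 : hh R x ≤ 2 := by
        have := hhT x
        rw [hTx2] at this
        exact Nat.le_of_dvd (by norm_num) this
      have : qq R x * hh R x ≤ 3 * 2 := Nat.mul_le_mul hq3 hh2
      nlinarith
  · -- type D
    obtain ⟨-, -, -, -, -, -, hcardx, hh3, -, -⟩ := hBA1 k G X (l + 1) R x
    obtain ⟨-, -, -, -, -, -, -, -, hTeven, hqT⟩ := hBA3 k G X (l + 1) R x ⊤
    obtain ⟨m, hm⟩ := hooln x
    have hox := hoopos x
    have hrh := hD.rh
    have hm0 : 0 < m := by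
      rcases Nat.eq_zero_or_pos m with h | h
      · rw [h] at hm; omega
      · exact h
    rw [hm] at hrh
    have h1 : 2 + m = m * R.T x := by
      have : l * (2 + m) = l * (m * R.T x) := by nlinarith
      exact Nat.eq_of_mul_eq_mul_left (by omega) this
    have hTx := hwild x hD.wild
    obtain ⟨t, ht⟩ := hTeven
    have hmT : m = 2 ∧ R.T x = 2 := by
      rw [ht] at h1 hTx ⊢
      have ht1 : 1 ≤ t := by omega
      have hmdvd : m ∣ 2 := by
        have : m ∣ 2 + m := ⟨2 * t, h1⟩
        exact (Nat.dvd_add_left (dvd_refl m)).1 this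
      have hmle : m ≤ 2 := Nat.le_of_dvd (by norm_num) hmdvd
      have : m = 1 ∨ m = 2 := by omega
      rcases this with h | h
      · rw [h] at h1; omega
      · rw [h] at h1; omega
    obtain ⟨hm2, hT2⟩ := hmT
    have hq3 : qq R x ≤ 3 := by omega
    have hh2 : hh R x ≤ 2 := by
      have := hhT x
      rw [hT2] at this
      exact Nat.le_of_dvd (by norm_num) this
    have hcard := hoo x
    rw [hm, hm2, hcardx] at hcard
    have h6 : qq R x * hh R x ≤ 3 * 2 := Nat.mul_le_mul hq3 hh2
    apply hfin
    apply hsmall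
    have hidx : (Q : Subgroup G).index = 2 * (qq R x * hh R x) := by
      apply Nat.eq_of_mul_eq_mul_right (show 0 < l by omega)
      rw [hindex, ← hcard]; ring
    have hidxpos : 0 < (Q : Subgroup G).index := by
      rcases Nat.eq_zero_or_pos (Q : Subgroup G).index with h | h
      · rw [h] at hindex; omega
      · exact h
    have := Nat.le_of_dvd hidxpos hdvd
    omega

end Pool.Agent.helper75.AU
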