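import Pool.Agent.helper1.AU.BBU
import Pool.Agent.helper1.AU.LM
import Pool.Agent.helper1.AU.T7
import Pool.Agent.helper11.AU.SM
import Pool.Agent.helper11.AU.W2
import Pool.Agent.helper13.AU.BA1
import Pool.Agent.helper13.AU.F1
import Pool.Agent.helper13.AU.F2
import Pool.Agent.helper13.AU.FINR
import Pool.Agent.helper13.AU.II4
import Pool.Agent.helper13.AU.TR
import Pool.Agent.helper18.AU.FH
import Pool.Agent.helper18.AU.MK
import Pool.Agent.helper18.AU.RP
import Pool.Agent.helper20.AU.P5B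
import Pool.Agent.helper26.AU.II3
import Pool.Agent.helper26.AU.RC3
import Pool.Agent.helper3.AU.ML
import Pool.Agent.helper3.AU.T5
import Pool.Agent.helper33.AU.BA5
import Pool.Agent.helper33.AU.BSS
import Pool.Agent.helper4.AU.BA2
import Pool.Agent.helper4.AU.IGA
import Pool.Agent.helper4.AU.S62
import Pool.Agent.helper43.AU.BA4
import Pool.Agent.helper43.AU.ID
import Pool.Agent.helper43.AU.IGF
import Pool.Agent.helper43.AU.NUM
import Pool.Agent.helper43.AU.S45
import Pool.Agent.helper44.AU.II2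
import Pool.Agent.helper44.AU.II5
import Pool.Agent.helper44.AU.II6
import Pool.Agent.helper45.AU.II7
import Pool.Agent.helper45.AU.N1
import Pool.Agent.helper45.AU.PI
import Pool.Agent.helper45.AU.RC4
import Pool.Agent.helper46.AU.IV
import Pool.Agent.helper46.AU.S8C
import Pool.Agent.helper46.AU.ZS
import Pool.Agent.helper58.AU.P5A
import Pool.Agent.helper58.AU.S64
import Pool.Agent.helper61.AU.CO
import Pool.Agent.helper61.AU.S63
import Pool.Agent.helper65.AU.S6
import Pool.Agent.helper72.AU.W1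
import Pool.Agent.helper74.AU.QU
import Pool.Agent.helper75.AU.T4
import Pool.Agent.helper75.AU.W3
import Pool.Agent.helper78.AU.F3ac
import Pool.Agent.helper78.AU.F3b
import Pool.Agent.helper78.AU.F4
import Pool.Agent.helper78.AU.S61
import Pool.Agent.helper78.AU.S80
import Pool.Agent.helper79.AU.P5C
import Pool.Agent.helper79.AU.P5D
import Pool.Agent.helper79.AU.S8
import Pool.Agent.helper84.AU.BA3
import Pool.Agent.helper84.AU.BLO
import Pool.Agent.helper84.AU.T6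
import Pool.Agent.helper89.AU.S12
import Pool.Agent.helper91.AU.II1
import Pool.Agent.helper92.AU.IGP
import Pool.Agent.helper75.AU.SpecR2
import Pool.Agent.helper53.AU.SpecTop

/-! # Project au: assembly of part R -/

namespace Pool.Agent.helper75.AU

theorem AsmR (hLO : Pool.Agent.helper53.AU.LO_stmt) (hSR : Pool.Agent.helper53.AU.SR_stmt)
    (hBU : Pool.Agent.helper53.AU.BU_stmt) (hRS : Pool.Agent.helper53.AU.RS_stmt)
    (hTG : Pool.Agent.helper53.AU.TG_stmt) : GRP_stmt := by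
  have kLO : LO_stmt := BLO hLO
  have kSS1 : SS1_stmt := BSS hSR
  have kBU : BU_stmt := BBU hBU
  have kBA1 : BA1_stmt := BA1
  have kBA2 : BA2_stmt := BA2
  have kBA3 : BA3_stmt := BA3 kBA1
  have kBA4 : BA4_stmt := BA4
  have kBA5 : BA5_stmt := BA5
  have kC3 : C3_stmt := C3
  have kC4 : C4_stmt := RC4 kBA1
  have kF1 : F1_stmt := F1 kBA1
  have kF2 : F2_stmt := F2 kBA1 kBA3 kF1
  have kF3a : F3a_stmt := F3a
  have kF3b : F3b_stmt := F3b
  have kF3c : F3c_stmt := F3c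
  have kF4 : F4_stmt := F4 kF2
  have kT4 : T4_stmt := T4 kBA1 kBA3 kBA4 kF1
  have kT5 : T5_stmt := T5
  have kT7 : T7_stmt := T7 kF3b
  have kLM : LM_stmt := LM kF3c
  have kT6 : T6_stmt := T6 kLM kBA1 kBA3 kBA4
  have kNUM : NUM_stmt := NUM kBA1 kC3
  have kW1 : W1_stmt := W1 kBA1 kBA3 kBA4 kC3 kF3c
  have kW2 : W2_stmt := W2 kBA1 kBA3 kC3 kF3c kLM kW1
  have kW3 : W3_stmt := W3 kBA1 kBA3 kBA4 kC3 kF2 kF3c kNUM
  have kP5D : P5D_stmt := P5D kBA1 kBA3 kBA4 kC3 kF4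
  have kP5A : P5A_stmt := P5A kBA1 kBA3 kBA4 kF1 kF2
  have kP5B : P5B_stmt := P5B kBA1 kBA3 kBA4 kF1
  have kP5C : P5C_stmt := P5C kBA1 kBA3 kBA4 kC3 kF1 kF4
  have kS45 : S45_stmt := S45 kBA5 kT4 kT5 kT6 kT7 kW2 kW3 kP5D kP5A kP5B kP5C
  have kS61 : S61_stmt := S61 kBA1 kBA3 kBA4
  have kTR : TR_stmt := TR
  have kZS : ZS_stmt := ZS
  have kS62 : S62_stmt := S62 kTR kZS kF3a kF3b
  have kN1 : N1_stmt := N1 kBA1 kBA2 kS61
  have kCO : CO_stmt := CO kBA1
  have kPI : PI_stmt := PI kBA1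
  have kS63 : S63_stmt := S63 kBA1 kBA3 kF1 kCO kPI kS62
  have kS64 : S64_stmt := S64 kBA1 kBA3 kBA4 kC4
  have kS6 : S6_stmt := S6 kBA1 kNUM kN1 kS61 kS62 kPI kS63 kS64
  have kS80 : S80_stmt := S80
  have kS8C : S8C_stmt := S8C kBA1 kF3a kF3b
  have kII1 : II1_stmt := II1 kTR
  have kII2 : II2_stmt := II2 kLO kII1
  have kII3 : II3_stmt := II3 kII2
  have kII4 : II4_stmt := II4 kLO kII3
  have kFH : FH_stmt := FH
  have kII5 : II5_stmt := II5 kII4 kFH
  have kII6 : II6_stmt := II6 kII5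
  have kII7 : II7_stmt := II7 kII1 kII6 kSS1 kBU
  have kMK : MK_stmt := MK
  have kML : ML_stmt := ML
  have kSM : SM_stmt := SM kMK kML
  have kRP : RP_stmt := RP
  have kS8 : S8_stmt := S8 kBA1 kPI kS80 kS8C kII7 kSM kRP
  have kS12 : S12_stmt := S12
  have kFINR : FINR_stmt := FINR
  have kQU : QU_stmt := QU
  have kIV : IV_stmt := IV kBA1 kF3b
  have kID : ID_stmt := ID kIV kQU
  have kIGP : IGP_stmt := IGP kBA1 kBA2 kIV kID
  have kIGA : IGA_stmt := IGA kBA1 kC4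
  have kIGF : IGF_stmt := IGF
  have kIG : IG_stmt := kIGF kIGP kIGA hRS hTG kF2 kBA1
  exact kFINR kS45 kS6 kS8 kIG kS12

/-- the same with the binder order of SpecTop -/
theorem AsmR_top (hLO : Pool.Agent.helper53.AU.LO_stmt) (hSR : Pool.Agent.helper53.AU.SR_stmt)
    (hBU : Pool.Agent.helper53.AU.BU_stmt) (hRS : Pool.Agent.helper53.AU.RS_stmt)
    (hTG : Pool.Agent.helper53.AU.TG_stmt) : Pool.Agent.helper53.AU.GRP_stmt :=
  fun k G X _ _ _ _ _ _ l hl R => AsmR hLO hSR hBU hRS hTG k G X l R hl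

end Pool.Agent.helper75.AU
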