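import Pool.Agent.helper53.AU.Defs

/-!
# Project au (MP_97532f_ag): definitions for sections 3, 4, 5, 6, 8, 12
-/

namespace Pool.Agent.helper75.AU

open scoped Classical
open Pool.Agent.helper53.AU MulAction

noncomputable section

/-! ## Notation around a point -/

section Pt

variable {k G X : Type} [Field k] [Group G] [Fintype G] [MulAction G X] [Fintype X] {g : ℕ}

/-- the order `q_x` of `P_x` -/
def qq (R : Ram k G X g) (x : X) : ℕ := Nat.card (R.P x)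

/-- the order `h_x` of `G_x / P_x` -/
def hh (R : Ram k G X g) (x : X) : ℕ := Nat.card (R.θ x).range

/-- `T_x(H)`: the sum of `i x s` over `s ∈ H ∩ P_x`, `s ≠ 1` -/
def TS (R : Ram k G X g) (H : Subgroup G) (x : X) : ℕ :=
  ∑ s ∈ Finset.univ.filter (fun s : G => s ∈ H ∧ s ∈ R.P x ∧ s ≠ 1), R.i x s

/-- the length of the orbit of `x` -/
def oo (G : Type) {X : Type} [Group G] [MulAction G X] (x : X) : ℕ := Nat.card (orbit G x)

/-- `c` generates a complement of `P_x` in `G_x` -/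
def IsC (R : Ram k G X g) (x : X) (c : G) : Prop :=
  ∃ hc : c ∈ stabilizer G x, orderOf c = hh R x ∧ orderOf (R.θ x ⟨c, hc⟩) = hh R x ∧
    ∀ s : G, s • x = x → ∃ p ∈ R.P x, ∃ n : ℕ, s = p * c ^ n

/-- `x` is a wild point of class 1 (all `i x s`, `s ∈ P_x \ 1`, are `1` mod `3`) -/
def Cl1 (R : Ram k G X g) (x : X) : Prop :=
  ∃ s : G, s ∈ R.P x ∧ s ≠ 1 ∧ R.i x s % 3 = 1

/-- types (A), (B), (C): all points with nontrivial stabiliser lie in the orbits of `x` and `y`, `P_x` is a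
nontrivial Sylow 3-subgroup, and Riemann-Hurwitz for `G` reads `2g-2 = |O|(T-1) + |O_2|(T_2-1)`. (Type (A): the
stabiliser of `y` is trivial. Type (B): it is nontrivial of order prime to 3.) -/
structure Two (R : Ram k G X g) (x y : X) : Prop where
  wild : R.P x ≠ ⊥
  syl : ∃ S : Sylow 3 G, (S : Subgroup G) = R.P x
  ne : ∀ a : G, a • x ≠ y
  cov : ∀ z : X, stabilizer G z ≠ ⊥ → z ∈ orbit G x ∨ z ∈ orbit G y
  rh : 2 * g + oo G x + oo G y = 2 + oo G x * R.T x + oo G y * R.T y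

/-- type (D) -/
structure TypD (R : Ram k G X g) (x y y' : X) : Prop where
  wild : R.P x ≠ ⊥
  syl : ∃ S : Sylow 3 G, (S : Subgroup G) = R.P x
  ne : ∀ a : G, a • x ≠ y
  ne' : ∀ a : G, a • x ≠ y'
  ne'' : ∀ a : G, a • y ≠ y'
  cov : ∀ z : X, stabilizer G z ≠ ⊥ → z ∈ orbit G x ∨ z ∈ orbit G y ∨ z ∈ orbit G y'
  cy : Nat.card (stabilizer G y) = 2
  cy' : Nat.card (stabilizer G y') = 2
  rh : 2 * g + oo G x = 2 + oo G x * R.T x

/-- the tame type (three orbits) -/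
structure TypT (R : Ram k G X g) (y₁ y₂ y₃ : X) : Prop where
  nd : ¬ 3 ∣ Nat.card G
  ne₁₂ : ∀ a : G, a • y₁ ≠ y₂
  ne₁₃ : ∀ a : G, a • y₁ ≠ y₃
  ne₂₃ : ∀ a : G, a • y₂ ≠ y₃
  cov : ∀ z : X, stabilizer G z ≠ ⊥ → z ∈ orbit G y₁ ∨ z ∈ orbit G y₂ ∨ z ∈ orbit G y₃
  c₁ : 2 ≤ Nat.card (stabilizer G y₁)
  c₂ : 2 ≤ Nat.card (stabilizer G y₂)
  c₃ : 2 ≤ Nat.card (stabilizer G y₃)
  rh : 2 * g + oo G y₁ + oo G y₂ + oo G y₃ = 2 + Nat.card G

end Pt

/-! ## The group generated by the 3-elements, the action on the Sylow 3-subgroups -/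

section Grp

variable (G : Type) [Group G]

/-- `G_1`: the subgroup generated by all elements of 3-power order -/
def thr : Subgroup G := Subgroup.closure {x : G | ∃ n : ℕ, x ^ (3 ^ n) = 1}

/-- the action of `G` on `Omega = Syl_3(G)` -/
def ph : G →* Equiv.Perm (Sylow 3 G) := MulAction.toPermHom G (Sylow 3 G)

/-- `K_1`: the elements of `G_1` acting trivially on `Syl_3(G)` -/
def K1 : Subgroup G := (ph G).ker ⊓ thr G

end Grp

/-! ## The outcome of section 6 -/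

section Six

variable {k G X : Type} [Field k] [Group G] [Fintype G] [MulAction G X] [Fintype X] {l : ℕ}

/-- the numerical data of types (A), (B), (C): `h_x = u h'`, `h_y = u e'`, `|O| = D e'`,
`q_2 |O_2| = D q h'`, `N = D q u e' h'`. -/
structure Num (R : Ram k G X (l + 1)) (x y : X) (D u h' e' : ℕ) : Prop where
  hx : hh R x = u * h'
  hy : hh R y = u * e'
  cop : Nat.Coprime h' e'
  ox : oo G x = D * e'
  oy : qq R y * oo G y = D * qq R x * h'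
  N : Nat.card G = D * qq R x * u * e' * h'
  dvd : D ∣ 2 * l
  qdvd : qq R y ∣ qq R x
  hT : hh R x ∣ R.T x
  pos : 0 < D ∧ 0 < u ∧ 0 < h' ∧ 0 < e'

/-- the outcome of section 6. `c` generates a complement `C` of `P_y` in `B_2 ∩ G_1`, `|C| = u_1 e'`. -/
structure Six (R : Ram k G X (l + 1)) (x y : X) (c : G) (u h' e' u₁ : ℕ) : Prop where
  two : Two R x y
  num : Num R x y 2 u h' e'
  big : 8 * (l + 1) < Nat.card G
  nl : ¬ l ∣ Nat.card G
  q2 : qq R y < qq R x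
  four : 4 ≤ e'
  mod3 : e' % 3 = 1
  om : Nat.card (Sylow 3 G) = e'
  u1 : u = (thr G).index * u₁
  cardG1 : Nat.card (thr G) = 2 * qq R x * u₁ * e' * h'
  cardB1 : Nat.card (stabilizer G x ⊓ thr G : Subgroup G) = qq R x * u₁ * h'
  cardN1 : Nat.card (Subgroup.normalizer (R.P x : Set G) ⊓ thr G : Subgroup G) = 2 * qq R x * u₁ * h'
  cardB2 : Nat.card (stabilizer G y ⊓ thr G : Subgroup G) = qq R y * (u₁ * e')
  fib : ∀ S : Sylow 3 G, Nat.card {z : X // z ∈ orbit G x ∧ R.P z = (S : Subgroup G)} = 2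
  trx : ∀ a : G, ∃ b ∈ thr G, b • x = a • x
  try' : ∀ a : G, ∃ b ∈ thr G, b • y = a • y
  c_mem : c ∈ stabilizer G y ⊓ thr G
  c_ord : orderOf c = u₁ * e'
  c_gen : ∀ s ∈ stabilizer G y ⊓ thr G, ∃ p ∈ R.P y, ∃ n : ℕ, s = p * c ^ n
  zp : ⁅(⊤ : Subgroup G), thr G⁆ = thr G
  k1c : ∀ z ∈ K1 G, ∀ s ∈ thr G, z * s * z⁻¹ * s⁻¹ ∈ K1 G ⊓ R.P x
  k1n : (K1 G ⊓ R.P x).Normal
  k1s : ∀ S : Sylow 3 G, K1 G ⊓ (S : Subgroup G) = K1 G ⊓ R.P x
  k1card : Nat.card (K1 G) ≤ 2 * Nat.card (K1 G ⊓ R.P x : Subgroup G)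
  k1t : ∀ S : Subgroup G, S ≤ thr G → IsPGroup 2 S → ¬ 2 ∣ S.relIndex (thr G) →
    ∀ z ∈ S ⊓ K1 G, z ∈ ⁅S, S⁆

/-- Case I: `C` has two orbits on `Omega`; `C ∩ N(P)` has order 2. -/
structure CaseI (G : Type) [Group G] (c : G) (h' e' u₁ : ℕ) : Prop where
  u1 : u₁ = 1
  ev : 2 ∣ e'
  od : ¬ 2 ∣ h'
  orb : ∀ (S : Sylow 3 G) (n : ℕ), c ^ n • S = S ↔ e' / 2 ∣ n

/-- Case II: `C` is transitive on `Omega`. -/
structure CaseII (G : Type) [Group G] (c : G) (h' e' u₁ : ℕ) : Prop where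
  u1 : u₁ = 1 ∨ u₁ = 2
  od : ¬ 2 ∣ e'
  ev : 2 ∣ h'
  tr : ∀ S S' : Sylow 3 G, ∃ n : ℕ, c ^ n • S = S'
  orb : ∀ (S : Sylow 3 G) (n : ℕ), c ^ n • S = S ↔ e' ∣ n

end Six

/-! ## Section 8: the abstract setting (`Gam` = image of `G`, `L` = image of `G_1` in `Perm Omega`) -/

structure CtxII (Gam Om : Type) [Group Gam] [MulAction Gam Om] (L : Subgroup Gam) (c : Gam) : Prop where
  finG : Finite Gam
  finO : Finite Om
  faithful : FaithfulSMul Gam Om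
  normal : L.Normal
  mem : c ∈ L
  tr : ∀ a b : Om, ∃ n : ℕ, c ^ n • a = b
  odd : ¬ 2 ∣ Nat.card Om
  one : 1 < Nat.card Om
  three : ¬ 3 ∣ Nat.card Om
  copr : ∀ a : Om, Nat.Coprime (Nat.card (L ⊓ stabilizer Gam a : Subgroup Gam)) (Nat.card Om)
  gen3 : Subgroup.closure {x : Gam | x ∈ L ∧ ∃ n : ℕ, x ^ (3 ^ n) = 1} = L
  cyc : ∀ r : ℕ, r.Prime → 5 ≤ r → ∀ Q : Subgroup Gam, Q ≤ L → IsPGroup r Q → IsCyclic Q
  syl2 : ∀ Q : Subgroup Gam, Q ≤ L → IsPGroup 2 Q →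
    ∃ A : Subgroup Gam, A ≤ Q ∧ IsCyclic A ∧ Nat.card Q ≤ 2 * Nat.card A
  zp : ⁅(⊤ : Subgroup Gam), L⁆ = L

end

end Pool.Agent.helper75.AU
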